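import Mathlib
import Pool.Agent.TH876.KR.Def
import Pool.Agent.TH876.Main

set_option autoImplicit false

/-!
# Quadratic points of the projective line minus three points

Definitions and the statements of the intermediate results, uniform in the number field.
-/

namespace Pool.Agent.TH876.QD

open NumberField IsDedekindDomain Finset Pool.Agent.H691R3 Pool.Agent.TH876.Loc
open Pool.Agent.TH876.KR (side rr)

/-- the algebraic numbers -/
abbrev Om : Type := AlgebraicClosure ℚ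

section

variable {K : Type} [Field K] [NumberField K]

open Classical in
/-- the primes of `s` of norm at most `(1 + log X) ^ κ` -/
noncomputable def smallPart (X κ : ℝ) (s : Finset (Pr K)) : Finset (Pr K) :=
  s.filter fun v => Nv v ≤ (1 + Real.log X) ^ κ

end

/-- few points of which the small primes have a large product, uniformly in the field -/
def ManySmall : Prop := ∀ (n : ℕ) (κ ρ : ℝ), 1 ≤ κ → 0 < ρ → ρ ≤ 1 → ∃ C : ℝ, 0 < C ∧
  ∀ (K : Type) [Field K] [NumberField K], Module.finrank ℚ K = n → ∀ X : ℝ, 1 ≤ X →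
    ∀ E : Finset K, (∀ x ∈ E, Pt x ∧ nn (sp x) ≤ X ∧ X ^ ρ ≤ nn (smallPart X κ (sp x))) →
      (E.card : ℝ) ≤ C * X ^ (1 - ρ / (4 * κ))

/-- few points with given defects at the primes of two sides, uniformly in the field -/
def FiberUnif : Prop := ∀ n : ℕ, ∃ C : ℝ, 1 ≤ C ∧
  ∀ (K : Type) [Field K] [NumberField K], Module.finrank ℚ K = n → ∀ (i j : Fin 3), i ≠ j →
    ∀ B : ℝ, 0 ≤ B → ∀ (f g : Pr K → ℝ) (F : Finset K),
      (∀ x ∈ F, Pt x ∧ hgt x ≤ B ∧ ∀ v : Pr K, df (Sum.inr v : Pl K) i x = f v ∧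
        df (Sum.inr v : Pl K) j x = g v) →
      (F.card : ℝ) ≤ C * (B + 1) ^ n

/-- sets of primes of which the small ones have a small product -/
def SetCount : Prop := ∀ (n : ℕ) (a M : ℝ), 1 ≤ a → 1 ≤ M → ∃ C : ℝ, 0 < C ∧
  ∀ (K : Type) [Field K] [NumberField K], Module.finrank ℚ K = n → ∀ X : ℝ, 1 ≤ X →
    ∀ U : Finset (Finset (Pr K)),
      (∀ s ∈ U, nn s ≤ X ^ ((2 : ℝ) / 3) ∧
        nn (smallPart X (16 * (a + 1)) s) ≤ X ^ (1 / (16 * (a + 1)))) →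
      ∑ s ∈ U, (M * (1 + Real.log X) ^ a) ^ s.card ≤ C * X ^ ((7 : ℝ) / 8)

/-- few points of small height of which the small primes have a small product -/
def FewSmall : Prop := ∀ (n : ℕ) (A M : ℝ), 1 ≤ A → 1 ≤ M → ∃ C : ℝ, 0 < C ∧
  ∀ (K : Type) [Field K] [NumberField K], Module.finrank ℚ K = n → ∀ X : ℝ, 1 ≤ X →
    ∀ E : Finset K, (∀ x ∈ E, Pt x ∧ nn (sp x) ≤ X ∧ hgt x ≤ M * (1 + Real.log X) ^ A ∧
      nn (smallPart X (16 * (2 * A + 1)) (sp x)) ≤ X ^ (1 / (16 * (2 * A + 1)))) →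
      (E.card : ℝ) ≤ C * X ^ ((15 : ℝ) / 16)

/-- a power saving for the number of points of polylogarithmic height, uniformly in the field -/
def PerField : Prop := ∀ (n : ℕ) (A M : ℝ), 1 ≤ A → 1 ≤ M → ∃ δ : ℝ, 0 < δ ∧ δ < 1 ∧
  ∃ C : ℝ, 0 < C ∧ ∀ (K : Type) [Field K] [NumberField K], Module.finrank ℚ K = n →
    ∀ X : ℝ, 1 ≤ X → ∀ E : Finset K,
      (∀ x ∈ E, Pt x ∧ nn (sp x) ≤ X ∧ hgt x ≤ M * (1 + Real.log X) ^ A) →
      (E.card : ℝ) ≤ C * X ^ (1 - δ)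

/-- `x` is an algebraic number of degree two, different from `0` and `-1`, and the absolute value
of the discriminant of its field `L`, the product of the norms of the primes of `L` where `x` or
`x + 1` is not a unit, and the height of `x` (relative to `L`) satisfy `Q` -/
def IsQ (Q : ℝ → ℝ → ℝ → Prop) (x : Om) : Prop :=
  ∃ (L : IntermediateField ℚ Om) (_ : NumberField L) (y : L), (y : Om) = x ∧
    Module.finrank ℚ L = 2 ∧ (∀ q : ℚ, algebraMap ℚ Om q ≠ x) ∧ Pt y ∧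
    Q ((NumberField.discr L).natAbs : ℝ) (nn (sp y)) (hgt y)

/-- a quadratic field is determined by its discriminant -/
def DiscInj : Prop := ∀ (L L' : IntermediateField ℚ Om) [NumberField L] [NumberField L'],
  Module.finrank ℚ L = 2 → Module.finrank ℚ L' = 2 →
  NumberField.discr L = NumberField.discr L' → L = L'

/-- summation over the quadratic fields -/
def SumFields : Prop := ∀ (Q : ℝ → ℝ → ℝ → Prop) (Z : ℝ) (b : ℕ → ℝ), (∀ d, 0 ≤ b d) →
  (∀ d r h, Q d r h → d ≤ Z) →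
  (∀ (L : IntermediateField ℚ Om) [NumberField L], Module.finrank ℚ L = 2 →
    ∀ E : Finset L, (∀ y ∈ E, Pt y ∧
      Q ((NumberField.discr L).natAbs : ℝ) (nn (sp y)) (hgt y)) →
      (E.card : ℝ) ≤ b (NumberField.discr L).natAbs) →
  ∀ F : Finset Om, (∀ x ∈ F, IsQ Q x) →
    (F.card : ℝ) ≤ 2 * ∑ d ∈ Finset.Icc 1 ⌊Z⌋₊, b d

/-- few quadratic points with a small product of the norms of the bad primes -/
def SmallRad : Prop := ∀ (A M ε : ℝ), 1 ≤ A → 1 ≤ M → 0 < ε → ∃ C : ℝ, 0 < C ∧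
  ∀ R Y : ℝ, 1 ≤ R → 1 ≤ Y → ∀ F : Finset Om,
    (∀ x ∈ F, IsQ (fun _ r h => r ≤ R ∧ h ≤ M * (1 + Real.log Y) ^ A) x) →
    (F.card : ℝ) ≤ C * Y ^ ε * R ^ (4 * A + 2)

/-- quadratic points of any height -/
def AllHeights : Prop := ∃ C : ℝ, 0 < C ∧ ∃ k : ℕ, ∀ Y : ℝ, 16 ≤ Y → ∀ F : Finset Om,
  (∀ x ∈ F, IsQ (fun d r _ => d * r ≤ Y) x) →
  (F.card : ℝ) ≤ C * Y * Real.log (Real.log Y) ^ k

/-- quadratic points of polylogarithmic height -/
def PolyHeights : Prop := ∀ (A M : ℝ), 1 ≤ A → 1 ≤ M → ∃ δ : ℝ, 0 < δ ∧ ∃ C : ℝ, 0 < C ∧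
  ∀ Y : ℝ, 1 ≤ Y → ∀ F : Finset Om,
    (∀ x ∈ F, IsQ (fun d r h => d * r ≤ Y ∧ h ≤ M * (1 + Real.log Y) ^ A) x) →
    (F.card : ℝ) ≤ C * Y ^ (1 - δ)

end Pool.Agent.TH876.QD
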