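import Mathlib
import Pool.Agent.TH876.Main
import Pool.Agent.TH876.QD.Def

set_option autoImplicit false

/-!
# Quadratic points of any height: the sum over the quadratic fields
-/

namespace Pool.Agent.TH876.QD

open NumberField IsDedekindDomain Finset Pool.Agent.H691R3 Pool.Agent.TH876.Loc
open Pool.Agent.TH876.KR (side rr)

private theorem allH_one_le_log16 : Real.exp 1 ≤ Real.log 16 := by
  have h1 : Real.log 16 = 4 * Real.log 2 := by
    have : (16 : ℝ) = 2 ^ 4 := by norm_num
    rw [this, Real.log_pow]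
    norm_num
  have h2 := Real.log_two_gt_d9
  have h3 := Real.exp_one_lt_d9
  rw [h1]
  linarith

private theorem allH_log {t : ℝ} (ht : 16 ≤ t) :
    Real.exp 1 ≤ Real.log t ∧ 1 ≤ Real.log t ∧ 1 ≤ Real.log (Real.log t) := by
  have h0 : Real.exp 1 ≤ Real.log t :=
    allH_one_le_log16.trans (Real.log_le_log (by norm_num) ht)
  have h1 : (1 : ℝ) ≤ Real.log t := le_trans (by linarith [Real.exp_one_gt_d9]) h0
  refine ⟨h0, h1, ?_⟩
  rw [Real.le_log_iff_exp_le (by linarith)]
  exact h0

/-- the sum of `1 / (d log (Y / d))` -/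
private theorem allH_sum {Y : ℝ} (D : ℕ) (hD : 1 ≤ D) (hY : 16 * (D : ℝ) ≤ Y) :
    ∑ d ∈ Finset.Icc 1 D, 1 / ((d : ℝ) * Real.log (Y / d)) ≤
      1 + 2 * (Real.log (Real.log Y) - Real.log (Real.log (Y / D))) := by
  induction D, hD using Nat.le_induction with
  | base =>
    simp only [Finset.Icc_self, Finset.sum_singleton, Nat.cast_one, one_mul, div_one, sub_self,
      mul_zero, add_zero]
    have h := (allH_log (t := Y) (by simpa using hY)).2.1
    rw [div_le_one (by linarith)]
    exact h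
  | succ n hn ih =>
    have hn1 : (1 : ℝ) ≤ n := by exact_mod_cast hn
    have hn0 : (0 : ℝ) < n := by linarith
    push_cast at hY
    have hYn : 16 * (n : ℝ) ≤ Y := by linarith
    have hY0 : 0 < Y := by linarith
    have ih' := ih hYn
    have hS : ∑ d ∈ Finset.Icc 1 (n + 1), 1 / ((d : ℝ) * Real.log (Y / d)) =
        ∑ d ∈ Finset.Icc 1 n, 1 / ((d : ℝ) * Real.log (Y / d)) +
          1 / (((n + 1 : ℕ) : ℝ) * Real.log (Y / ((n + 1 : ℕ) : ℝ))) :=
      Finset.sum_Icc_succ_top (by omega) _
    rw [hS]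
    push_cast
    set A := Real.log (Y / n) with hA
    set B := Real.log (Y / ((n : ℝ) + 1)) with hB
    have hB16 : (16 : ℝ) ≤ Y / ((n : ℝ) + 1) := by
      rw [le_div_iff₀ (by linarith)]
      linarith
    have hB1 := (allH_log hB16).2.1
    have hAB : A - B = Real.log (((n : ℝ) + 1) / n) := by
      rw [hA, hB, Real.log_div hY0.ne' hn0.ne', Real.log_div hY0.ne' (by linarith),
        Real.log_div (by linarith) hn0.ne']
      ring
    have hlow : 1 / ((n : ℝ) + 1) ≤ A - B := by
      rw [hAB]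
      have h1 := Real.one_sub_inv_le_log_of_pos (show 0 < ((n : ℝ) + 1) / n by positivity)
      refine le_trans (le_of_eq ?_) h1
      field_simp
      ring
    have hup : A - B ≤ B := by
      rw [hAB]
      have h1 : ((n : ℝ) + 1) / n ≤ 2 := by
        rw [div_le_iff₀ hn0]
        linarith
      have h2 := Real.log_le_log (by positivity) h1
      have h3 : Real.log 2 ≤ 1 := by linarith [Real.log_two_lt_d9]
      linarith
    have hA0 : 0 < A := by
      have : 0 < 1 / ((n : ℝ) + 1) := by positivity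
      linarith
    have hB0 : 0 < B := by linarith
    have hlog : (A - B) / A ≤ Real.log A - Real.log B := by
      rw [← Real.log_div hA0.ne' hB0.ne']
      have h1 := Real.one_sub_inv_le_log_of_pos (show 0 < A / B by positivity)
      refine le_trans (le_of_eq ?_) h1
      field_simp
    have hterm : 1 / (((n : ℝ) + 1) * B) ≤ 2 * ((A - B) / A) := by
      have h1 : 1 / (((n : ℝ) + 1) * B) = (1 / ((n : ℝ) + 1)) / B := by
        rw [div_div]
      rw [h1, ← mul_div_assoc, div_le_div_iff₀ hB0 hA0]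
      have h2 : 0 < 1 / ((n : ℝ) + 1) := by positivity
      nlinarith
    have hfin : 1 / (((n : ℝ) + 1) * B) ≤ 2 * (Real.log A - Real.log B) := by linarith
    linarith

theorem allHeights (hS : SumFields) : AllHeights := by
  classical
  obtain ⟨c, k, hc, hcount⟩ := count_all 2
  set B0 : ℝ := c * 16 / Real.log 16 * Real.log (Real.log 16) ^ k with hB0
  have h16 := allH_log (t := 16) le_rfl
  have hB0n : 0 ≤ B0 := by
    have h1 := h16.2.1
    have h2 := h16.2.2
    have h3 : 0 ≤ Real.log (Real.log 16) := by linarith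
    positivity
  refine ⟨2 * (3 * c + B0), by positivity, k + 1, ?_⟩
  intro Y hY F hF
  have hY0 : 0 < Y := by linarith
  set b : ℕ → ℝ := fun d => if 1 ≤ d ∧ 16 * (d : ℝ) ≤ Y then
    c * (Y / d) / Real.log (Y / d) * Real.log (Real.log (Y / d)) ^ k else B0 with hb
  have hdiv : ∀ d : ℕ, 1 ≤ d → 16 * (d : ℝ) ≤ Y → 16 ≤ Y / d := by
    intro d hd h
    have hd0 : (0 : ℝ) < d := by exact_mod_cast hd
    rw [le_div_iff₀ hd0]
    exact h
  have hbn : ∀ d, 0 ≤ b d := by
    intro d
    simp only [hb]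
    split_ifs with h
    · have h1 := allH_log (hdiv d h.1 h.2)
      have h2 : 0 ≤ Y / d := by positivity
      have h3 : 0 ≤ Real.log (Y / d) := by linarith [h1.2.1]
      have h4 : 0 ≤ Real.log (Real.log (Y / d)) := by linarith [h1.2.2]
      positivity
    · exact hB0n
  have hmain := hS (fun d r _ => d * r ≤ Y ∧ d ≤ Y) Y b hbn (fun d r h hQ => hQ.2) (by
    intro L _ hL E hE
    have hd0 : NumberField.discr L ≠ 0 := NumberField.discr_ne_zero L
    have hd1 : 1 ≤ (NumberField.discr L).natAbs := by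
      have := Int.natAbs_pos.2 hd0
      omega
    generalize hd : (NumberField.discr L).natAbs = d at hE hd1 ⊢
    have hdp : (0 : ℝ) < d := by exact_mod_cast hd1
    simp only [hb]
    split_ifs with h
    · refine hcount L hL (Y / d) (hdiv d h.1 h.2) E fun y hy => ?_
      obtain ⟨h1, h2, _⟩ := hE y hy
      refine ⟨h1, ?_⟩
      rw [le_div_iff₀ hdp]
      linarith
    · refine hcount L hL 16 le_rfl E fun y hy => ?_
      obtain ⟨h1, h2, _⟩ := hE y hy
      refine ⟨h1, ?_⟩
      by_contra hcon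
      rw [not_le] at hcon
      apply h
      refine ⟨hd1, ?_⟩
      nlinarith) F (by
    intro x hx
    obtain ⟨L, hNL, y, h1, h2, h3, h4, h5⟩ := hF x hx
    refine ⟨L, hNL, y, h1, h2, h3, h4, h5, ?_⟩
    refine le_trans ?_ h5
    have h6 := one_le_nn (sp y)
    have h7 : (0 : ℝ) ≤ ((NumberField.discr L).natAbs : ℝ) := Nat.cast_nonneg _
    nlinarith)
  refine hmain.trans ?_
  have hLY := allH_log hY
  set l : ℝ := Real.log (Real.log Y) with hl
  have hl1 : 1 ≤ l := hLY.2.2
  have hlk : 1 ≤ l ^ k := one_le_pow₀ hl1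
  -- the two parts of the sum
  set D : ℕ := ⌊Y / 16⌋₊ with hD
  have hD1 : 1 ≤ D := by
    rw [hD]
    apply Nat.le_floor
    rw [Nat.cast_one, le_div_iff₀ (by norm_num)]
    linarith
  have hD16 : 16 * (D : ℝ) ≤ Y := by
    have := Nat.floor_le (show 0 ≤ Y / 16 by positivity)
    rw [← hD] at this
    linarith
  have hDd : ∀ d : ℕ, 16 * (d : ℝ) ≤ Y ↔ d ≤ D := by
    intro d
    rw [hD, Nat.le_floor_iff (by positivity), le_div_iff₀ (by norm_num)]
    constructor <;> intro h <;> linarith
  have hterm : ∀ d ∈ Finset.Icc 1 ⌊Y⌋₊, b d ≤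
      (if d ∈ Finset.Icc 1 D then c * Y * l ^ k * (1 / ((d : ℝ) * Real.log (Y / d))) else 0) +
        B0 := by
    intro d hd
    rw [Finset.mem_Icc] at hd
    simp only [hb]
    by_cases h : 1 ≤ d ∧ 16 * (d : ℝ) ≤ Y
    · have hdp : (0 : ℝ) < d := by exact_mod_cast h.1
      have hd1 : (1 : ℝ) ≤ d := by exact_mod_cast h.1
      rw [if_pos h, if_pos (Finset.mem_Icc.2 ⟨h.1, (hDd d).1 h.2⟩)]
      have h1 := allH_log (hdiv d h.1 h.2)
      have h2 : Real.log (Real.log (Y / d)) ≤ l := by
        rw [hl]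
        apply Real.log_le_log (by linarith [h1.2.1])
        apply Real.log_le_log (by linarith [hdiv d h.1 h.2])
        exact div_le_self hY0.le hd1
      have h3 : Real.log (Real.log (Y / d)) ^ k ≤ l ^ k :=
        pow_le_pow_left₀ (by linarith [h1.2.2]) h2 k
      have h4 : 0 < Real.log (Y / d) := by linarith [h1.2.1]
      have h5 : c * (Y / d) / Real.log (Y / d) * Real.log (Real.log (Y / d)) ^ k ≤
          c * (Y / d) / Real.log (Y / d) * l ^ k :=
        mul_le_mul_of_nonneg_left h3 (by positivity)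
      have h6 : c * (Y / d) / Real.log (Y / d) * l ^ k =
          c * Y * l ^ k * (1 / ((d : ℝ) * Real.log (Y / d))) := by
        field_simp
      linarith
    · rw [if_neg h]
      have : (0 : ℝ) ≤ (if d ∈ Finset.Icc 1 D then
          c * Y * l ^ k * (1 / ((d : ℝ) * Real.log (Y / d))) else 0) := by
        split_ifs with h'
        · rw [Finset.mem_Icc] at h'
          exact absurd ⟨h'.1, (hDd d).2 h'.2⟩ h
        · exact le_rfl
      linarith
  have hsum1 : ∑ d ∈ Finset.Icc 1 ⌊Y⌋₊, b d ≤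
      c * Y * l ^ k * (∑ d ∈ Finset.Icc 1 D, 1 / ((d : ℝ) * Real.log (Y / d))) + Y * B0 := by
    refine (Finset.sum_le_sum hterm).trans ?_
    rw [Finset.sum_add_distrib]
    refine add_le_add ?_ ?_
    · rw [← Finset.sum_filter, Finset.mul_sum]
      refine Finset.sum_le_sum_of_subset_of_nonneg ?_ ?_
      · intro d hd
        exact (Finset.mem_filter.1 hd).2
      · intro d hd _
        rw [Finset.mem_Icc] at hd
        have h1 := allH_log (hdiv d hd.1 ((hDd d).2 hd.2))
        have h4 : 0 < Real.log (Y / d) := by linarith [h1.2.1]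
        have hl0 : 0 ≤ l := by linarith
        positivity
    · rw [Finset.sum_const, Nat.card_Icc, nsmul_eq_mul, Nat.add_sub_cancel]
      exact mul_le_mul_of_nonneg_right (Nat.floor_le hY0.le) hB0n
  have hsum2 := allH_sum D hD1 hD16
  have hllD : 0 ≤ Real.log (Real.log (Y / D)) := by
    have := (allH_log (hdiv D hD1 hD16)).2.2
    linarith
  have hsum3 : ∑ d ∈ Finset.Icc 1 D, 1 / ((d : ℝ) * Real.log (Y / d)) ≤ 3 * l := by
    linarith
  have hl0 : 0 ≤ l := by linarith
  have h7 : c * Y * l ^ k * (∑ d ∈ Finset.Icc 1 D, 1 / ((d : ℝ) * Real.log (Y / d))) ≤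
      c * Y * l ^ k * (3 * l) := mul_le_mul_of_nonneg_left hsum3 (by positivity)
  have h8 : Y * B0 ≤ B0 * Y * l ^ (k + 1) := by
    have h9 : 1 ≤ l ^ (k + 1) := one_le_pow₀ hl1
    have h10 : 0 ≤ B0 * Y := by positivity
    nlinarith
  have h11 : c * Y * l ^ k * (3 * l) = 3 * c * Y * l ^ (k + 1) := by ring
  calc 2 * ∑ d ∈ Finset.Icc 1 ⌊Y⌋₊, b d ≤ 2 * (3 * c * Y * l ^ (k + 1) + B0 * Y * l ^ (k + 1)) := by
        linarith
    _ = 2 * (3 * c + B0) * Y * l ^ (k + 1) := by ring

end Pool.Agent.TH876.QD
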