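import Mathlib
import Pool.Agent.TH876.QD.Def

set_option autoImplicit false

namespace Pool.Agent.TH876.QD

open NumberField IsDedekindDomain Finset Pool.Agent.H691R3 Pool.Agent.TH876.Loc
open Pool.Agent.TH876.KR (side rr)

/-- a quadratic extension of `ℚ` is generated by a square root -/
private theorem disc_root (L : Type) [Field L] [Algebra ℚ L] [FiniteDimensional ℚ L]
    (h2 : Module.finrank ℚ L = 2) :
    ∃ (θ : L) (m : ℚ), (∀ q : ℚ, algebraMap ℚ L q ≠ θ) ∧ θ ^ 2 = algebraMap ℚ L m := by
  have hch : CharZero L := algebraRat.charZero L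
  obtain ⟨y, hy⟩ : ∃ y : L, ∀ q : ℚ, algebraMap ℚ L q ≠ y := by
    by_contra hcon
    push Not at hcon
    have h1 : Module.finrank ℚ L ≤ 1 := by
      apply finrank_le_one (1 : L)
      intro w
      obtain ⟨q, hq⟩ := hcon w
      exact ⟨q, by rw [← hq, Algebra.algebraMap_eq_smul_one]⟩
    omega
  have hli : LinearIndependent ℚ ![(1 : L), y] := by
    rw [LinearIndependent.pair_iff]
    intro s t hst
    have ht : t = 0 := by
      by_contra ht
      apply hy (-s / t)
      have h3 : t • y = -(s • (1 : L)) := by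
        rw [eq_neg_iff_add_eq_zero, add_comm]
        exact hst
      have h4 : y = t⁻¹ • (-(s • (1 : L))) := by
        rw [← h3, smul_smul, inv_mul_cancel₀ ht, one_smul]
      rw [h4, Algebra.algebraMap_eq_smul_one, ← neg_smul, smul_smul]
      congr 1
      field_simp
    refine ⟨?_, ht⟩
    rw [ht, zero_smul, add_zero] at hst
    exact (smul_eq_zero.mp hst).resolve_right one_ne_zero
  let B := basisOfLinearIndependentOfCardEqFinrank hli (by rw [h2]; rfl)
  have hB0 : B 0 = 1 := by simp [B]
  have hB1 : B 1 = y := by simp [B]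
  obtain ⟨a, ha⟩ : ∃ a, a = B.repr (y ^ 2) 0 := ⟨_, rfl⟩
  obtain ⟨b, hb⟩ : ∃ b, b = B.repr (y ^ 2) 1 := ⟨_, rfl⟩
  have hsum : y ^ 2 = a • (1 : L) + b • y := by
    have := B.sum_repr (y ^ 2)
    rw [Fin.sum_univ_two, hB0, hB1, ← ha, ← hb] at this
    exact this.symm
  refine ⟨y - algebraMap ℚ L (b / 2), a + b ^ 2 / 4, ?_, ?_⟩
  · intro q hq
    apply hy (q + b / 2)
    rw [map_add, hq]
    ring
  · have e1 : y ^ 2 = algebraMap ℚ L a + algebraMap ℚ L b * y := by
      rw [hsum, Algebra.smul_def, Algebra.smul_def, mul_one]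
    have e2 : algebraMap ℚ L (b / 2) = algebraMap ℚ L b / 2 := by
      rw [map_div₀, map_ofNat]
    have e3 : algebraMap ℚ L (a + b ^ 2 / 4) = algebraMap ℚ L a + algebraMap ℚ L b ^ 2 / 4 := by
      rw [map_add, map_div₀, map_pow, map_ofNat]
    rw [e2, e3]
    have e4 : (y - algebraMap ℚ L b / 2) ^ 2 = y ^ 2 - algebraMap ℚ L b * y +
      algebraMap ℚ L b ^ 2 / 4 := by ring
    rw [e4, e1]
    ring

/-- the square root of the discriminant -/
private theorem disc_sqrt (L : Type) [Field L] [NumberField L]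
    (h2 : Module.finrank ℚ L = 2) :
    ∃ δ : L, (∀ q : ℚ, algebraMap ℚ L q ≠ δ) ∧
      δ ^ 2 = algebraMap ℚ L ((NumberField.discr L : ℤ) : ℚ) := by
  obtain ⟨θ, m, hθ, hm⟩ := disc_root L h2
  have hθ0 : θ ≠ 0 := fun h => hθ 0 (by rw [map_zero, h])
  have hli : LinearIndependent ℚ ![(1 : L), θ] := by
    rw [LinearIndependent.pair_iff]
    intro s t hst
    have ht : t = 0 := by
      by_contra ht
      apply hθ (-s / t)
      have h3 : t • θ = -(s • (1 : L)) := by
        rw [eq_neg_iff_add_eq_zero, add_comm]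
        exact hst
      have h4 : θ = t⁻¹ • (-(s • (1 : L))) := by
        rw [← h3, smul_smul, inv_mul_cancel₀ ht, one_smul]
      rw [h4, Algebra.algebraMap_eq_smul_one, ← neg_smul, smul_smul]
      congr 1
      field_simp
    refine ⟨?_, ht⟩
    rw [ht, zero_smul, add_zero] at hst
    exact (smul_eq_zero.mp hst).resolve_right one_ne_zero
  let B := basisOfLinearIndependentOfCardEqFinrank hli (by rw [h2]; rfl)
  have hB : ⇑B = ![(1 : L), θ] := coe_basisOfLinearIndependentOfCardEqFinrank hli _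
  have hB0 : B 0 = 1 := by rw [hB]; rfl
  have hB1 : B 1 = θ := by rw [hB]; rfl
  -- the trace of `θ`
  have htr : Algebra.trace ℚ L θ = 0 := by
    rw [Algebra.trace_eq_matrix_trace B, Matrix.trace_fin_two, Algebra.leftMulMatrix_eq_repr_mul,
      Algebra.leftMulMatrix_eq_repr_mul, hB0, hB1, mul_one]
    have e1 : B.repr θ 0 = 0 := by
      rw [← hB1, B.repr_self]
      simp
    have e2 : θ * θ = m • B 0 := by
      rw [← pow_two, hm, hB0, Algebra.algebraMap_eq_smul_one]
    rw [e1, e2, map_smul, B.repr_self]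
    simp
  have htr2 : Algebra.trace ℚ L (θ * θ) = 2 * m := by
    rw [← pow_two, hm, Algebra.trace_algebraMap, h2]
    simp
  have htr1 : Algebra.trace ℚ L (1 : L) = 2 := by
    have := Algebra.trace_algebraMap (R := ℚ) (S := L) (1 : ℚ)
    rw [map_one, h2] at this
    rw [this]
    simp
  have hdB : Algebra.discr ℚ B = 4 * m := by
    rw [Algebra.discr_def, Matrix.det_fin_two]
    simp only [Algebra.traceMatrix_apply, Algebra.traceForm_apply, hB0, hB1, mul_one, one_mul]
    rw [htr, htr1, htr2]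
    ring
  -- the integral basis
  let I := NumberField.integralBasis L
  have hcard : Fintype.card (Module.Free.ChooseBasisIndex ℤ (𝓞 L)) = 2 := by
    rw [← Module.finrank_eq_card_basis I, h2]
  let e : Module.Free.ChooseBasisIndex ℤ (𝓞 L) ≃ Fin 2 := Fintype.equivFinOfCardEq hcard
  let J := I.reindex e
  have hdJ : Algebra.discr ℚ J = ((NumberField.discr L : ℤ) : ℚ) := by
    rw [NumberField.coe_discr]
    have : (⇑J : Fin 2 → L) = ⇑I ∘ ⇑e.symm := by
      funext k
      simp [J]
    rw [this]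
    exact Algebra.discr_reindex ℚ I e
  obtain ⟨r, hr⟩ : ∃ r : ℚ, r = (B.toMatrix J).det := ⟨_, rfl⟩
  have hrel : Algebra.discr ℚ J = r ^ 2 * (4 * m) := by
    have h5 := Algebra.discr_of_matrix_vecMul (A := ℚ) (⇑B) (B.toMatrix J)
    rw [Module.Basis.toMatrix_map_vecMul] at h5
    rw [h5, hdB, ← hr]
  have hD0 : ((NumberField.discr L : ℤ) : ℚ) ≠ 0 := by
    exact_mod_cast NumberField.discr_ne_zero L
  have hr0 : r ≠ 0 := by
    intro h
    apply hD0
    rw [← hdJ, hrel, h]
    ring
  refine ⟨algebraMap ℚ L (2 * r) * θ, ?_, ?_⟩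
  · intro q hq
    apply hθ (q / (2 * r))
    rw [map_div₀, hq, mul_comm, mul_div_assoc, div_self, mul_one]
    rw [map_ne_zero]
    exact mul_ne_zero two_ne_zero hr0
  · rw [mul_pow, hm, ← map_pow, ← map_mul, ← hdJ, hrel]
    congr 1
    ring

theorem discInj : DiscInj := by
  intro L L' _ _ h2 h2' hD
  obtain ⟨δ, hδ, hδ2⟩ := disc_sqrt L h2
  obtain ⟨δ', hδ', hδ2'⟩ := disc_sqrt L' h2'
  have hsq : (δ : Om) ^ 2 = (δ' : Om) ^ 2 := by
    have e1 : (δ : Om) ^ 2 = algebraMap ℚ Om ((NumberField.discr L : ℤ) : ℚ) := by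
      have := congrArg (fun z : L => (z : Om)) hδ2
      simpa using this
    have e2 : (δ' : Om) ^ 2 = algebraMap ℚ Om ((NumberField.discr L' : ℤ) : ℚ) := by
      have := congrArg (fun z : L' => (z : Om)) hδ2'
      simpa using this
    rw [e1, e2, hD]
  have hmem : (δ : Om) ∈ L' := by
    rcases sq_eq_sq_iff_eq_or_eq_neg.mp hsq with h | h
    · rw [h]; exact δ'.2
    · rw [h]; exact neg_mem δ'.2
  have key : ∀ (M : IntermediateField ℚ Om), (δ : Om) ∈ M → Module.finrank ℚ M = 2 →
      IntermediateField.adjoin ℚ {(δ : Om)} = M := by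
    intro M hM hf
    have : FiniteDimensional ℚ M := Module.finite_of_finrank_pos (by rw [hf]; norm_num)
    have hle : IntermediateField.adjoin ℚ {(δ : Om)} ≤ M := by
      rw [IntermediateField.adjoin_le_iff]
      simpa using hM
    apply IntermediateField.eq_of_le_of_finrank_le hle
    rw [hf]
    have h1 : Module.finrank ℚ (IntermediateField.adjoin ℚ {(δ : Om)}) ≠ 1 := by
      intro h1
      rw [IntermediateField.finrank_adjoin_simple_eq_one_iff, IntermediateField.mem_bot] at h1
      obtain ⟨q, hq⟩ := h1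
      apply hδ q
      apply Subtype.ext
      exact hq
    have : FiniteDimensional ℚ (IntermediateField.adjoin ℚ {(δ : Om)}) :=
      Module.Finite.of_injective (IntermediateField.inclusion hle).toLinearMap
        (IntermediateField.inclusion_injective hle)
    have h0 : 0 < Module.finrank ℚ (IntermediateField.adjoin ℚ {(δ : Om)}) :=
      Module.finrank_pos
    omega
  rw [← key L δ.2 h2, key L' hmem h2']

end Pool.Agent.TH876.QD
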