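import Mathlib
import Pool.Agent.TH876.QD.Def

set_option autoImplicit false

/-!
# Points of small height with few small primes
-/

namespace Pool.Agent.TH876.QD

open NumberField IsDedekindDomain Finset Pool.Agent.H691R3 Pool.Agent.TH876.Loc
open Pool.Agent.TH876.KR (side rr)

section
variable {K : Type} [Field K] [NumberField K]

/-- the multiplicity of a defect -/
noncomputable def fewS_m (i : Fin 3) (x : K) (v : Pr K) : ℕ :=
  ⌊df (Sum.inr v : Pl K) i x / Real.log (Nv v)⌋₊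

theorem fewS_df {x : K} (hx : Pt x) (i : Fin 3) (v : Pr K) :
    df (Sum.inr v : Pl K) i x = fewS_m i x v * Real.log (Nv v) := by
  obtain ⟨m, hm⟩ := KR.df_int hx v i
  unfold fewS_m
  rw [hm, mul_div_assoc, div_self (KR.log_Nv_pos' v).ne', mul_one, Nat.floor_natCast]

theorem fewS_df_le {x : K} (hx : Pt x) (i : Fin 3) (v : Pr K) :
    df (Sum.inr v : Pl K) i x ≤ hgt x := by
  classical
  have h1 := sum_df hx (V := insert v (sp x)) (Finset.subset_insert _ _) i
  rw [← h1]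
  exact Finset.single_le_sum (f := fun w => df w i x) (fun w _ => df_nonneg w i hx)
    ((inr_mem_Spl _ v).2 (mem_insert_self _ _))

theorem fewS_m_le {x : K} (hx : Pt x) (i : Fin 3) (v : Pr K) {B : ℝ} (hB : hgt x ≤ B) :
    (fewS_m i x v : ℝ) ≤ 2 * B := by
  have h1 := fewS_df_le hx i v
  rw [fewS_df hx] at h1
  have h2 : Real.log 2 ≤ Real.log (Nv v) := Real.log_le_log (by norm_num) (two_le_Nv v)
  have h3 : (1 : ℝ) / 2 < Real.log 2 := by linarith [Real.log_two_gt_d9]
  have h4 : (0 : ℝ) ≤ fewS_m i x v := Nat.cast_nonneg _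
  nlinarith

theorem fewS_pair {x : K} (hx : Pt x) : ∃ p : Fin 3 × Fin 3, p.1 ≠ p.2 ∧
    rr p.1 x + rr p.2 x ≤ (2 : ℝ) / 3 * Real.log (nn (sp x)) := by
  have h1 := KR.rr_sum' hx
  by_contra hcon
  push Not at hcon
  have h01 := hcon (0, 1) (by decide)
  have h12 := hcon (1, 2) (by decide)
  have h02 := hcon (0, 2) (by decide)
  simp only at h01 h12 h02
  linarith

open Classical in
/-- the chosen pair of sides -/
noncomputable def fewS_p (x : K) : Fin 3 × Fin 3 :=
  if h : Pt x then (fewS_pair h).choose else (0, 0)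

theorem fewS_p_ne {x : K} (hx : Pt x) : (fewS_p x).1 ≠ (fewS_p x).2 := by
  unfold fewS_p
  rw [dif_pos hx]
  exact (fewS_pair hx).choose_spec.1

theorem fewS_p_le {x : K} (hx : Pt x) :
    rr (fewS_p x).1 x + rr (fewS_p x).2 x ≤ (2 : ℝ) / 3 * Real.log (nn (sp x)) := by
  unfold fewS_p
  rw [dif_pos hx]
  exact (fewS_pair hx).choose_spec.2

open Classical in
/-- the primes of the two chosen sides -/
noncomputable def fewS_U (x : K) : Finset (Pr K) := side (fewS_p x).1 x ∪ side (fewS_p x).2 x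

theorem fewS_U_sub (x : K) : fewS_U x ⊆ sp x := by
  classical
  exact Finset.union_subset (KR.side_sub _ x) (KR.side_sub _ x)

theorem fewS_U_nn {x : K} (hx : Pt x) {X : ℝ} (hX : 1 ≤ X) (h : nn (sp x) ≤ X) :
    nn (fewS_U x) ≤ X ^ ((2 : ℝ) / 3) := by
  classical
  have h1 : Real.log (nn (fewS_U x)) = rr (fewS_p x).1 x + rr (fewS_p x).2 x := by
    rw [KR.log_nn]
    unfold fewS_U
    rw [Finset.sum_union (KR.side_disj (fewS_p_ne hx))]
    rfl
  have h2 := fewS_p_le hx
  rw [← h1] at h2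
  have h3 : Real.log (nn (sp x)) ≤ Real.log X := Real.log_le_log (nn_pos _) h
  rw [← Real.log_le_log_iff (nn_pos _) (Real.rpow_pos_of_pos (by linarith) _),
    Real.log_rpow (by linarith)]
  linarith

theorem fewS_small_mono (X κ : ℝ) {s t : Finset (Pr K)} (h : s ⊆ t) :
    smallPart X κ s ⊆ smallPart X κ t := by
  classical
  unfold smallPart
  exact Finset.filter_subset_filter _ h

/-- the multiplicities on the two chosen sides -/
noncomputable def fewS_d (x : K) : (s : Finset (Pr K)) × (∀ v ∈ s, ℕ × ℕ) :=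
  ⟨fewS_U x, fun v _ => (fewS_m (fewS_p x).1 x v, fewS_m (fewS_p x).2 x v)⟩

open Classical in
/-- extension by zero -/
noncomputable def fewS_ex (t : (s : Finset (Pr K)) × (∀ v ∈ s, ℕ × ℕ)) (v : Pr K) : ℕ × ℕ :=
  if h : v ∈ t.1 then t.2 v h else (0, 0)

theorem fewS_same {x y : K} (hx : Pt x) (hy : Pt y) (hp : fewS_p x = fewS_p y)
    (hd : fewS_d x = fewS_d y) (v : Pr K) :
    df (Sum.inr v : Pl K) (fewS_p y).1 x = df (Sum.inr v : Pl K) (fewS_p y).1 y ∧
    df (Sum.inr v : Pl K) (fewS_p y).2 x = df (Sum.inr v : Pl K) (fewS_p y).2 y := by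
  classical
  have hU : fewS_U x = fewS_U y := congrArg Sigma.fst hd
  by_cases hv : v ∈ fewS_U y
  · have hv' : v ∈ fewS_U x := by rw [hU]; exact hv
    have h1 : fewS_ex (fewS_d x) v = fewS_ex (fewS_d y) v := by rw [hd]
    have h2 : fewS_ex (fewS_d x) v = (fewS_m (fewS_p x).1 x v, fewS_m (fewS_p x).2 x v) := by
      unfold fewS_ex fewS_d
      simp only [dif_pos hv']
    have h3 : fewS_ex (fewS_d y) v = (fewS_m (fewS_p y).1 y v, fewS_m (fewS_p y).2 y v) := by
      unfold fewS_ex fewS_d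
      simp only [dif_pos hv]
    rw [h2, h3, hp, Prod.mk.injEq] at h1
    rw [fewS_df hx, fewS_df hx, fewS_df hy, fewS_df hy, h1.1, h1.2]
    exact ⟨rfl, rfl⟩
  · have hv' : v ∉ fewS_U x := by rw [hU]; exact hv
    unfold fewS_U at hv hv'
    rw [hp] at hv'
    rw [Finset.mem_union, not_or] at hv hv'
    rw [KR.df_eq_zero hx hv'.1, KR.df_eq_zero hx hv'.2, KR.df_eq_zero hy hv.1,
      KR.df_eq_zero hy hv.2]
    exact ⟨rfl, rfl⟩

end

private theorem fewS_pow (A : ℝ) (hA : 1 ≤ A) (n : ℕ) : ∃ C : ℝ, 0 < C ∧ ∀ X : ℝ, 1 ≤ X →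
    (1 + Real.log X) ^ (A * n) ≤ C * X ^ ((1 : ℝ) / 16) := by
  set ε : ℝ := 1 / (16 * A * (n + 1)) with hε
  have hn : (0 : ℝ) < n + 1 := by positivity
  have hA0 : (0 : ℝ) < A := by linarith
  have hε0 : 0 < ε := by rw [hε]; positivity
  refine ⟨(1 + 1 / ε) ^ (A * (n + 1)), by positivity, fun X hX => ?_⟩
  have hX0 : 0 < X := by linarith
  have hL : 0 ≤ Real.log X := Real.log_nonneg hX
  have h1 : 1 + Real.log X ≤ (1 + 1 / ε) * X ^ ε := by
    have h2 := Real.log_le_rpow_div hX0.le hε0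
    have h3 : (1 : ℝ) ≤ X ^ ε := Real.one_le_rpow hX hε0.le
    have : (1 + 1 / ε) * X ^ ε = X ^ ε + X ^ ε / ε := by ring
    linarith
  calc (1 + Real.log X) ^ (A * n) ≤ (1 + Real.log X) ^ (A * (n + 1)) := by
        apply Real.rpow_le_rpow_of_exponent_le (by linarith)
        nlinarith
    _ ≤ ((1 + 1 / ε) * X ^ ε) ^ (A * (n + 1)) := by
        apply Real.rpow_le_rpow (by linarith) h1 (by positivity)
    _ = (1 + 1 / ε) ^ (A * (n + 1)) * X ^ ((1 : ℝ) / 16) := by
        rw [Real.mul_rpow (by positivity) (by positivity), ← Real.rpow_mul hX0.le]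
        congr 2
        rw [hε]; field_simp

theorem fewSmall (hF : FiberUnif) (hS : SetCount) : FewSmall := by
  classical
  intro n A M hA hM
  obtain ⟨C1, hC1, hF1⟩ := hF n
  obtain ⟨C2, hC2, hS2⟩ := hS n (2 * A) (9 * M ^ 2) (by linarith) (by nlinarith)
  obtain ⟨C3, hC3, hP⟩ := fewS_pow A hA n
  refine ⟨C1 * ((2 * M) ^ n * C3) * (9 * C2), by positivity, ?_⟩
  intro K _ _ hn X hX E hE
  have hX0 : 0 < X := by linarith
  have hL : 0 ≤ Real.log X := Real.log_nonneg hX
  set B : ℝ := M * (1 + Real.log X) ^ A with hBdef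
  have hpow1 : 1 ≤ (1 + Real.log X) ^ A := Real.one_le_rpow (by linarith) (by linarith)
  have hB1 : 1 ≤ B := by rw [hBdef]; nlinarith
  set N : ℕ := ⌊2 * B⌋₊ with hN
  have hNle : (N : ℝ) ≤ 2 * B := Nat.floor_le (by linarith)
  -- the sets of primes
  set U : Finset (Finset (Pr K)) := E.image fewS_U with hU
  have hUs : ∀ s ∈ U, nn s ≤ X ^ ((2 : ℝ) / 3) ∧
      nn (smallPart X (16 * (2 * A + 1)) s) ≤ X ^ (1 / (16 * (2 * A + 1))) := by
    intro s hs
    obtain ⟨x, hxE, rfl⟩ := Finset.mem_image.1 hs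
    obtain ⟨hx, h1, _, h3⟩ := hE x hxE
    exact ⟨fewS_U_nn hx hX h1,
      (nn_mono (fewS_small_mono X _ (fewS_U_sub x))).trans h3⟩
  have hsum := hS2 K hn X hX U hUs
  -- the target
  set T : Finset ((Fin 3 × Fin 3) × ((s : Finset (Pr K)) × (∀ v ∈ s, ℕ × ℕ))) :=
    (Finset.univ : Finset (Fin 3 × Fin 3)) ×ˢ
      U.sigma (fun s => s.pi fun _ => range (N + 1) ×ˢ range (N + 1)) with hT
  have hTcard : (T.card : ℝ) ≤ 9 * (C2 * X ^ ((7 : ℝ) / 8)) := by
    have h1 : T.card = 9 * ∑ s ∈ U, ((N + 1) * (N + 1)) ^ s.card := by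
      rw [hT, Finset.card_product, Finset.card_sigma]
      congr 1
      apply Finset.sum_congr rfl
      intro s _
      rw [Finset.card_pi, Finset.prod_const, Finset.card_product, Finset.card_range]
    rw [h1]
    push_cast
    apply mul_le_mul_of_nonneg_left _ (by norm_num)
    refine le_trans (Finset.sum_le_sum fun s _ => ?_) hsum
    apply pow_le_pow_left₀ (by positivity)
    have h2 : ((N : ℝ) + 1) * ((N : ℝ) + 1) ≤ (3 * B) * (3 * B) := by
      apply mul_le_mul <;> linarith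
    refine h2.trans (le_of_eq ?_)
    have h3 : (1 + Real.log X) ^ (2 * A) = ((1 + Real.log X) ^ A) ^ 2 := by
      rw [← Real.rpow_natCast, ← Real.rpow_mul (by linarith)]
      congr 1
      push_cast; ring
    rw [h3, hBdef]; ring
  -- the map
  set G : K → (Fin 3 × Fin 3) × ((s : Finset (Pr K)) × (∀ v ∈ s, ℕ × ℕ)) :=
    fun x => (fewS_p x, fewS_d x) with hG
  have hmaps : ∀ x ∈ E, G x ∈ T := by
    intro x hxE
    obtain ⟨hx, h1, h2, h3⟩ := hE x hxE
    rw [hT, Finset.mem_product]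
    refine ⟨Finset.mem_univ _, ?_⟩
    rw [Finset.mem_sigma]
    refine ⟨Finset.mem_image_of_mem _ hxE, ?_⟩
    rw [Finset.mem_pi]
    intro v hv
    rw [Finset.mem_product, Finset.mem_range, Finset.mem_range]
    have hm : ∀ i : Fin 3, fewS_m i x v < N + 1 := by
      intro i
      have := fewS_m_le hx i v h2
      exact Nat.lt_succ_of_le (Nat.le_floor this)
    exact ⟨hm _, hm _⟩
  have hcard := Finset.card_eq_sum_card_fiberwise (f := G) (s := E) (t := T) hmaps
  have hfib : ∀ t ∈ T, (((E.filter fun x => G x = t).card : ℕ) : ℝ) ≤ C1 * (B + 1) ^ n := by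
    intro t _
    rcases (E.filter fun x => G x = t).eq_empty_or_nonempty with h0 | ⟨x0, hx0⟩
    · rw [h0]
      simp only [card_empty, Nat.cast_zero]
      positivity
    · rw [Finset.mem_filter] at hx0
      obtain ⟨hx0E, rfl⟩ := hx0
      have hpt0 := (hE x0 hx0E).1
      refine hF1 K hn (fewS_p x0).1 (fewS_p x0).2 (fewS_p_ne hpt0) B (by linarith)
        (fun v => df (Sum.inr v : Pl K) (fewS_p x0).1 x0)
        (fun v => df (Sum.inr v : Pl K) (fewS_p x0).2 x0) _ ?_
      intro x hxF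
      rw [Finset.mem_filter] at hxF
      obtain ⟨hxE, hxG⟩ := hxF
      rw [hG, Prod.mk.injEq] at hxG
      have hpt := (hE x hxE).1
      exact ⟨hpt, (hE x hxE).2.2.1, fewS_same hpt hpt0 hxG.1 hxG.2⟩
  have hcard' : (E.card : ℝ) = ∑ t ∈ T, (((E.filter fun x => G x = t).card : ℕ) : ℝ) := by
    rw [hcard]; push_cast; rfl
  have hBn : (B + 1) ^ n ≤ (2 * M) ^ n * (C3 * X ^ ((1 : ℝ) / 16)) := by
    calc (B + 1) ^ n ≤ (2 * B) ^ n := pow_le_pow_left₀ (by linarith) (by linarith) n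
      _ = (2 * M) ^ n * ((1 + Real.log X) ^ A) ^ n := by rw [hBdef, ← mul_pow]; ring
      _ = (2 * M) ^ n * (1 + Real.log X) ^ (A * n) := by
          rw [Real.rpow_mul (by linarith), Real.rpow_natCast]
      _ ≤ (2 * M) ^ n * (C3 * X ^ ((1 : ℝ) / 16)) :=
          mul_le_mul_of_nonneg_left (hP X hX) (by positivity)
  calc (E.card : ℝ) ≤ ∑ t ∈ T, C1 * (B + 1) ^ n := by rw [hcard']; exact Finset.sum_le_sum hfib
    _ = C1 * (B + 1) ^ n * T.card := by rw [Finset.sum_const, nsmul_eq_mul]; ring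
    _ ≤ C1 * ((2 * M) ^ n * (C3 * X ^ ((1 : ℝ) / 16))) * (9 * (C2 * X ^ ((7 : ℝ) / 8))) := by
        apply mul_le_mul _ hTcard (by positivity) (by positivity)
        exact mul_le_mul_of_nonneg_left hBn (by linarith)
    _ = C1 * ((2 * M) ^ n * C3) * (9 * C2) * X ^ ((15 : ℝ) / 16) := by
        have : X ^ ((15 : ℝ) / 16) = X ^ ((1 : ℝ) / 16) * X ^ ((7 : ℝ) / 8) := by
          rw [← Real.rpow_add hX0]; norm_num
        rw [this]; ring

end Pool.Agent.TH876.QD
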