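import Mathlib
import Pool.Agent.TH876.QD.Def
import Pool.Agent.TH876.KR.Fiber
import Pool.Agent.TH876.Small

set_option autoImplicit false

/-!
# Points with given finite defects on two sides, uniformly in the field
-/

namespace Pool.Agent.TH876.QD

open NumberField IsDedekindDomain Finset Pool.Agent.H691R3 Pool.Agent.TH876.Loc
open Pool.Agent.TH876.KR (side rr)

/-- the number of infinite places is at most the degree -/
private theorem fiberU_card_places (K : Type) [Field K] [NumberField K] {n : ℕ}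
    (hn : Module.finrank ℚ K = n) : Fintype.card (InfinitePlace K) ≤ n := by
  have h1 := InfinitePlace.card_add_two_mul_card_eq_rank K
  have h2 := InfinitePlace.card_eq_nrRealPlaces_add_nrComplexPlaces K
  rw [← hn]
  omega

/-- units with small logarithms, uniformly in the field -/
private theorem fiberU_small (n : ℕ) : ∃ C : ℝ, 0 ≤ C ∧
    ∀ (K : Type) [Field K] [NumberField K], Module.finrank ℚ K = n → ∀ E : Finset K,
    (∀ q ∈ E, q ≠ 0 ∧ (∀ v : Pr K, fv v q = 1) ∧
      ∀ w : InfinitePlace K, |lg (Sum.inl w : Pl K) q| ≤ 1) → (E.card : ℝ) ≤ C := by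
  obtain ⟨C, hC0, hC⟩ := count_bounded n ⌈Real.exp (n + 1)⌉₊
  refine ⟨C, hC0, ?_⟩
  intro K _ _ hn E hE
  refine hC K hn E ?_
  intro q hq
  obtain ⟨hq0, hf, hi⟩ := hE q hq
  have hr := fiberU_card_places K hn
  have hlog : Height.logHeight₁ q ≤ (n : ℝ) := by
    rw [NumberField.logHeight₁_eq]
    have h1 : ∑ᶠ v : FinitePlace K, Real.posLog (v q) = 0 := by
      rw [← finsum_comp_equiv (FinitePlace.equivHeightOneSpectrum (K := K)).symm]
      refine finsum_eq_zero_of_forall_eq_zero fun v => ?_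
      show Real.posLog (fv v q) = 0
      rw [hf v, Real.posLog_one]
    rw [h1, add_zero]
    calc ∑ w : InfinitePlace K, (w.mult : ℝ) * Real.posLog (w q)
        ≤ ∑ _w : InfinitePlace K, (1 : ℝ) := by
          refine Finset.sum_le_sum fun w _ => ?_
          have h2 := (abs_le.1 (hi w)).2
          have h3 : lg (Sum.inl w : Pl K) q = (w.mult : ℝ) * Real.log (w q) := rfl
          rw [h3] at h2
          rw [Real.posLog_apply]
          rcases le_total 0 (Real.log (w q)) with h | h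
          · rw [max_eq_right h]
            exact h2
          · rw [max_eq_left h, mul_zero]
            exact zero_le_one
      _ = (Fintype.card (InfinitePlace K) : ℝ) := by simp
      _ ≤ (n : ℝ) := by exact_mod_cast hr
  constructor
  · obtain ⟨m, h1, h2, h3⟩ := exists_nat_le_mulHeight₁ q
    refine ⟨m, h1, ?_, h3⟩
    have h4 : Height.mulHeight₁ q ≤ Real.exp (n + 1) := by
      have h5 : Height.logHeight₁ q ≤ (n : ℝ) + 1 := by linarith
      rw [Height.logHeight₁_eq_log_mulHeight₁,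
        Real.log_le_iff_le_exp (Height.mulHeight₁_pos q)] at h5
      exact h5
    have h6 : (m : ℝ) ≤ (⌈Real.exp (n + 1)⌉₊ : ℝ) := (h2.trans h4).trans (Nat.le_ceil _)
    exact_mod_cast h6
  · intro w
    refine le_trans ?_ (Nat.le_ceil _)
    have h2 := (abs_le.1 (hi w)).2
    have h3 : lg (Sum.inl w : Pl K) q = (w.mult : ℝ) * Real.log (w q) := rfl
    rw [h3] at h2
    have h5 : (1 : ℝ) ≤ (w.mult : ℝ) := by exact_mod_cast InfinitePlace.mult_pos
    have h6 : Real.log (w q) ≤ (n : ℝ) + 1 := by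
      have hn0 : (0 : ℝ) ≤ n := Nat.cast_nonneg n
      by_contra hcon
      push Not at hcon
      nlinarith
    rwa [Real.log_le_iff_le_exp (InfinitePlace.pos_iff.mpr hq0)] at h6

/-- units with bounded logarithms, uniformly in the field -/
private theorem fiberU_units (n : ℕ) : ∃ C : ℝ, 0 ≤ C ∧
    ∀ (K : Type) [Field K] [NumberField K], Module.finrank ℚ K = n → ∀ R : ℝ, 0 ≤ R →
    ∀ U : Finset K, (∀ u ∈ U, u ≠ 0 ∧ (∀ v : Pr K, fv v u = 1) ∧
      ∀ w : InfinitePlace K, |lg (Sum.inl w : Pl K) u| ≤ R) →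
    (U.card : ℝ) ≤ C * (2 * R + 3) ^ n := by
  classical
  obtain ⟨C, hC0, hC⟩ := fiberU_small n
  refine ⟨C, hC0, ?_⟩
  intro K _ _ hn R hR U hU
  have hr := fiberU_card_places K hn
  set c : K → (InfinitePlace K → ℤ) := fun u w => ⌊lg (Sum.inl w : Pl K) u⌋ with hc
  have himg : ((U.image c).card : ℝ) ≤ (2 * R + 3) ^ n := by
    have hsub : U.image c ⊆ Fintype.piFinset fun _ : InfinitePlace K =>
        Finset.Icc (-(⌈R⌉₊ : ℤ)) (⌈R⌉₊ : ℤ) := by
      intro f hf
      obtain ⟨u, hu, rfl⟩ := Finset.mem_image.1 hf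
      rw [Fintype.mem_piFinset]
      intro w
      have h1 := abs_le.1 ((hU u hu).2.2 w)
      have h2 : R ≤ (⌈R⌉₊ : ℝ) := Nat.le_ceil R
      rw [Finset.mem_Icc]
      constructor
      · rw [hc, Int.le_floor]
        push_cast
        linarith [h1.1]
      · have h3 : ((⌊lg (Sum.inl w : Pl K) u⌋ : ℤ) : ℝ) ≤ ((⌈R⌉₊ : ℤ) : ℝ) := by
          push_cast
          linarith [h1.2, Int.floor_le (lg (Sum.inl w : Pl K) u)]
        exact_mod_cast h3
    have h1 : (U.image c).card ≤ (2 * ⌈R⌉₊ + 1) ^ Fintype.card (InfinitePlace K) := by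
      refine (Finset.card_le_card hsub).trans (le_of_eq ?_)
      rw [Fintype.card_piFinset, Finset.prod_const, Finset.card_univ, Int.card_Icc]
      congr 1
      omega
    have h2 : ((U.image c).card : ℝ) ≤
        (2 * (⌈R⌉₊ : ℝ) + 1) ^ Fintype.card (InfinitePlace K) := by exact_mod_cast h1
    have h3 : (⌈R⌉₊ : ℝ) < R + 1 := Nat.ceil_lt_add_one hR
    calc ((U.image c).card : ℝ) ≤ (2 * (⌈R⌉₊ : ℝ) + 1) ^ Fintype.card (InfinitePlace K) := h2
      _ ≤ (2 * R + 3) ^ Fintype.card (InfinitePlace K) :=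
          pow_le_pow_left₀ (by positivity) (by linarith) _
      _ ≤ (2 * R + 3) ^ n := pow_le_pow_right₀ (by linarith) hr
  have hfib : ∀ a ∈ U.image c, ((U.filter fun x => c x = a).card : ℝ) ≤ C := by
    intro a ha
    obtain ⟨u₀, hu₀, rfl⟩ := Finset.mem_image.1 ha
    have h0 := (hU u₀ hu₀).1
    have hinj : Set.InjOn (fun u => u / u₀)
        ((U.filter fun x => c x = c u₀ : Finset K) : Set K) := by
      intro u _ u' _ he
      have he' : u / u₀ = u' / u₀ := he
      rwa [div_left_inj' h0] at he'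
    rw [← Finset.card_image_of_injOn hinj]
    refine hC K hn _ ?_
    intro q hq
    obtain ⟨u, hu, rfl⟩ := Finset.mem_image.1 hq
    rw [Finset.mem_filter] at hu
    obtain ⟨huU, hcu⟩ := hu
    have hune := (hU u huU).1
    refine ⟨div_ne_zero hune h0, fun v => ?_, fun w => ?_⟩
    · show fv v (u / u₀) = 1
      rw [map_div₀, (hU u huU).2.1 v, (hU u₀ hu₀).2.1 v, div_one]
    · show |lg (Sum.inl w : Pl K) (u / u₀)| ≤ 1
      rw [KR.lg_div _ hune h0]
      have h5 : ⌊lg (Sum.inl w : Pl K) u⌋ = ⌊lg (Sum.inl w : Pl K) u₀⌋ := congrFun hcu w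
      exact (Int.abs_sub_lt_one_of_floor_eq_floor h5).le
  have hsum : U.card = ∑ a ∈ U.image c, (U.filter fun x => c x = a).card :=
    Finset.card_eq_sum_card_image c U
  calc (U.card : ℝ) = ∑ a ∈ U.image c, ((U.filter fun x => c x = a).card : ℝ) := by
        rw [hsum]
        push_cast
        rfl
    _ ≤ ∑ _a ∈ U.image c, C := Finset.sum_le_sum hfib
    _ = ((U.image c).card : ℝ) * C := by rw [Finset.sum_const, nsmul_eq_mul]
    _ ≤ (2 * R + 3) ^ n * C := mul_le_mul_of_nonneg_right himg hC0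
    _ = C * (2 * R + 3) ^ n := mul_comm _ _

theorem fiberUnif : FiberUnif := by
  classical
  intro n
  obtain ⟨C₀, hC₀0, hC₀⟩ := fiberU_units n
  refine ⟨1 + C₀ * 4 ^ n, ?_, ?_⟩
  · have : (0 : ℝ) ≤ C₀ * 4 ^ n := by positivity
    linarith
  intro K _ _ hn i j hij B hB f g F hF
  have hB1 : (0 : ℝ) ≤ (B + 1) ^ n := by positivity
  rcases F.eq_empty_or_nonempty with rfl | ⟨x₀, hx₀⟩
  · rw [Finset.card_empty, Nat.cast_zero]
    positivity
  have hP₀ := (hF x₀ hx₀).1
  have hq₀ := KR.qt_ne hP₀ i j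
  have hinj : Set.InjOn (fun x => KR.qt i j x / KR.qt i j x₀) F := by
    intro x hx y hy he
    have he' : KR.qt i j x / KR.qt i j x₀ = KR.qt i j y / KR.qt i j x₀ := he
    rw [div_left_inj' hq₀] at he'
    exact KR.qt_inj hij (hF x hx).1 (hF y hy).1 he'
  have hqb : ∀ x ∈ F, ∀ w : InfinitePlace K, |lg (Sum.inl w : Pl K) (KR.qt i j x)| ≤ B := by
    intro x hx w
    have hP := (hF x hx).1
    have hb := (hF x hx).2.1
    rw [KR.lg_qt hP, abs_le]
    have h1 := df_nonneg (Sum.inl w : Pl K) i hP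
    have h2 := df_nonneg (Sum.inl w : Pl K) j hP
    have h3 := KR.df_le_hgt_inf hP w i
    have h4 := KR.df_le_hgt_inf hP w j
    constructor <;> linarith
  have hcard := hC₀ K hn (2 * B) (by linarith)
    (F.image fun x => KR.qt i j x / KR.qt i j x₀) ?_
  · rw [Finset.card_image_of_injOn hinj] at hcard
    calc (F.card : ℝ) ≤ C₀ * (2 * (2 * B) + 3) ^ n := hcard
      _ ≤ C₀ * (4 * (B + 1)) ^ n := by
          refine mul_le_mul_of_nonneg_left ?_ hC₀0
          exact pow_le_pow_left₀ (by linarith) (by linarith) n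
      _ = (C₀ * 4 ^ n) * (B + 1) ^ n := by rw [mul_pow]; ring
      _ ≤ (1 + C₀ * 4 ^ n) * (B + 1) ^ n := by
          refine mul_le_mul_of_nonneg_right ?_ hB1
          linarith
  · intro u hu
    obtain ⟨x, hx, rfl⟩ := Finset.mem_image.1 hu
    have hP := (hF x hx).1
    have hq := KR.qt_ne hP i j
    refine ⟨div_ne_zero hq hq₀, fun v => ?_, fun w => ?_⟩
    · have h1 : lg (Sum.inr v : Pl K) (KR.qt i j x / KR.qt i j x₀) = 0 := by
        rw [KR.lg_div _ hq hq₀, KR.lg_qt hP, KR.lg_qt hP₀, ((hF x hx).2.2 v).1,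
          ((hF x hx).2.2 v).2, ((hF x₀ hx₀).2.2 v).1, ((hF x₀ hx₀).2.2 v).2]
        ring
      have h2 : lg (Sum.inr v : Pl K) (KR.qt i j x / KR.qt i j x₀) =
          1 * Real.log (fv v (KR.qt i j x / KR.qt i j x₀)) := rfl
      rw [h2, one_mul] at h1
      exact Real.eq_one_of_pos_of_log_eq_zero (KR.fv_pos v (div_ne_zero hq hq₀)) h1
    · show |lg (Sum.inl w : Pl K) (KR.qt i j x / KR.qt i j x₀)| ≤ 2 * B
      rw [KR.lg_div _ hq hq₀]
      have h1 := hqb x hx w
      have h2 := hqb x₀ hx₀ w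
      rw [abs_le] at h1 h2 ⊢
      constructor <;> linarith [h1.1, h1.2, h2.1, h2.2]

end Pool.Agent.TH876.QD
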