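import Mathlib
import Pool.Agent.TH876.QD.Def
import Pool.Agent.TH876.KR.Fin

set_option autoImplicit false

/-!
# The final statement in terms of the fields `ℚ(x)`
-/

namespace Pool.Agent.TH876.QD

open NumberField IsDedekindDomain Finset Pool.Agent.H691R3 Pool.Agent.TH876.Loc
open Pool.Agent.TH876.KR (side rr)

open IntermediateField in
/-- the field generated by an algebraic number is a number field -/
theorem numberField_adjoin (x : AlgebraicClosure ℚ) : NumberField ℚ⟮x⟯ := by
  have h : IsIntegral ℚ x := (AlgebraicClosure.isAlgebraic ℚ).isAlgebraic x |>.isIntegral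
  have := IntermediateField.adjoin.finiteDimensional h
  exact { to_charZero := inferInstance, to_finiteDimensional := inferInstance }

open IntermediateField in
/-- the product of the norms of the primes of `ℚ(x)` at which `x` or `1 - x` is not a unit -/
noncomputable def radNorm (x : AlgebraicClosure ℚ) : ℝ :=
  haveI := numberField_adjoin x
  ∏ᶠ v ∈ {v : HeightOneSpectrum (𝓞 ℚ⟮x⟯) |
    ¬ (v.valuation ℚ⟮x⟯ (AdjoinSimple.gen ℚ x) = 1 ∧
      v.valuation ℚ⟮x⟯ (1 - AdjoinSimple.gen ℚ x) = 1)}, (Ideal.absNorm v.asIdeal : ℝ)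

open IntermediateField in
/-- the absolute value of the discriminant of `ℚ(x)` -/
noncomputable def absDisc (x : AlgebraicClosure ℚ) : ℝ :=
  haveI := numberField_adjoin x
  |(NumberField.discr ℚ⟮x⟯ : ℝ)|

open IntermediateField in
/-- the absolute logarithmic height of `x` -/
noncomputable def absHeight (x : AlgebraicClosure ℚ) : ℝ :=
  haveI := numberField_adjoin x
  Height.logHeight₁ (AdjoinSimple.gen ℚ x) / (Module.finrank ℚ ℚ⟮x⟯ : ℝ)

open IntermediateField in
/-- the quadratic numbers `x` with `|D| * N(rad x) ≤ Y` -/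
def QuadPts (Y : ℝ) : Set (AlgebraicClosure ℚ) :=
  {x | Module.finrank ℚ ℚ⟮x⟯ = 2 ∧ absDisc x * radNorm x ≤ Y}

private theorem finQ_fv_one {K : Type} [Field K] [NumberField K] (v : Pr K) (x : K) :
    v.valuation K x = 1 ↔ fv v x = 1 := by
  have h1 : fv v x = ((WithZeroMulInt.toNNReal (NumberField.HeightOneSpectrum.absNorm_ne_zero v)
    (v.valuation K x) : NNReal) : ℝ) := NumberField.FinitePlace.norm_embedding' (v := v) (x := x)
  rw [h1, NNReal.coe_eq_one, WithZeroMulInt.toNNReal_eq_one_iff _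
    (NumberField.HeightOneSpectrum.absNorm_ne_zero v)
    (NumberField.HeightOneSpectrum.one_lt_absNorm_nnreal v).ne']

/-- the product over the bad primes -/
private theorem finQ_rad {K : Type} [Field K] [NumberField K] (g : K) (hg : Pt (-g)) :
    ∏ᶠ v ∈ {v : HeightOneSpectrum (𝓞 K) | ¬ (v.valuation K g = 1 ∧ v.valuation K (1 - g) = 1)},
      (Ideal.absNorm v.asIdeal : ℝ) = nn (sp (-g)) := by
  have hset : {v : HeightOneSpectrum (𝓞 K) | ¬ (v.valuation K g = 1 ∧ v.valuation K (1 - g) = 1)} =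
      ((sp (-g) : Finset (Pr K)) : Set (Pr K)) := by
    ext v
    rw [Set.mem_ofPred_eq, Finset.mem_coe, mem_sp hg, finQ_fv_one, finQ_fv_one, (fv v).map_neg,
      neg_add_eq_sub]
  rw [hset, finprod_mem_coe_finset]
  rfl

/-- the matrix of the forms `t`, `1`, `-t-1` -/
private def finQ_mat (K : Type) [Field K] : Fin 3 × Fin 2 → K :=
  fun p => ![![1, 0], ![0, 1], ![-1, -1]] p.1 p.2

private theorem finQ_mat_height (K : Type) [Field K] [NumberField K] :
    Height.logHeight (finQ_mat K) = 0 := by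
  have hne : finQ_mat K ≠ 0 := by
    intro h
    have := congrFun h (0, 0)
    exact one_ne_zero this
  have key : ∀ a : AbsoluteValue K ℝ, (⨆ i : Fin 3 × Fin 2, a (finQ_mat K i)) = 1 := by
    intro a
    have hle : ∀ i, a (finQ_mat K i) ≤ 1 := by
      rintro ⟨i, j⟩
      fin_cases i <;> fin_cases j <;> simp [finQ_mat]
    refine le_antisymm (ciSup_le hle) ?_
    have h1 : a (finQ_mat K (0, 0)) = 1 := map_one a
    rw [← h1]
    exact le_ciSup (f := fun i : Fin 3 × Fin 2 => a (finQ_mat K i))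
      (Set.finite_range _).bddAbove (0, 0)
  rw [Height.logHeight_eq_log_mulHeight, NumberField.mulHeight_eq hne]
  have h1 : ∀ w : InfinitePlace K, (⨆ i : Fin 3 × Fin 2, w (finQ_mat K i)) = 1 := fun w => key w.1
  have h2 : ∀ w : FinitePlace K, (⨆ i : Fin 3 × Fin 2, w (finQ_mat K i)) = 1 := fun w => key w.1
  simp only [h1, h2, one_pow, Finset.prod_const_one, finprod_one, mul_one, Real.log_one]

private theorem finQ_hgt {K : Type} [Field K] [NumberField K] {t : K} (ht : Pt t) :
    hgt t ≤ Module.finrank ℚ K * Real.log 2 + Height.logHeight₁ t := by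
  refine (KR.hgt_le_logHeight ht).trans ?_
  have h1 : (fun i : Fin 3 => L i t) =
      (fun i : Fin 3 => ∑ j, finQ_mat K (i, j) * ![t, 1] j) := by
    funext i
    rw [Fin.sum_univ_two]
    unfold finQ_mat L
    fin_cases i <;> simp
    ring
  rw [h1, Height.logHeight₁_eq_logHeight]
  refine (Height.logHeight_linearMap_apply_le (finQ_mat K) ![t, 1]).trans ?_
  rw [Nat.card_eq_fintype_card, Fintype.card_fin, finQ_mat_height, add_zero,
    NumberField.totalWeight_eq_finrank]
  push_cast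
  exact le_rfl

open IntermediateField in
/-- the points of `QuadPts` in terms of `IsQ` -/
private theorem finQ_isQ {Y : ℝ} {x : AlgebraicClosure ℚ} (hx : x ∈ QuadPts Y)
    (Q : ℝ → ℝ → ℝ → Prop)
    (hQ : ∀ h : ℝ, h ≤ 2 * Real.log 2 + 2 * absHeight x → Q (absDisc x) (radNorm x) h) :
    IsQ Q (-x) := by
  have inst := numberField_adjoin x
  have h2 : Module.finrank ℚ ℚ⟮x⟯ = 2 := hx.1
  have hq : ∀ q : ℚ, algebraMap ℚ Om q ≠ x := by
    intro q hq
    have h3 : ℚ⟮x⟯ = ⊥ := by
      rw [IntermediateField.adjoin_simple_eq_bot_iff, IntermediateField.mem_bot]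
      exact ⟨q, hq⟩
    rw [h3, IntermediateField.finrank_bot] at h2
    omega
  have hpt : Pt (-(AdjoinSimple.gen ℚ x) : ℚ⟮x⟯) := by
    constructor
    · intro h
      have h3 : (AdjoinSimple.gen ℚ x : ℚ⟮x⟯) = 0 := neg_eq_zero.1 h
      have h4 : (x : Om) = 0 := by
        have := congrArg (algebraMap ℚ⟮x⟯ Om) h3
        rwa [AdjoinSimple.algebraMap_gen, map_zero] at this
      exact hq 0 (by rw [h4, map_zero])
    · intro h
      have h3 : (AdjoinSimple.gen ℚ x : ℚ⟮x⟯) = 1 := by
        linear_combination -h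
      have h4 : (x : Om) = 1 := by
        have := congrArg (algebraMap ℚ⟮x⟯ Om) h3
        rwa [AdjoinSimple.algebraMap_gen, map_one] at this
      exact hq 1 (by rw [h4, map_one])
  refine ⟨ℚ⟮x⟯, inst, -(AdjoinSimple.gen ℚ x), ?_, h2, ?_, hpt, ?_⟩
  · rfl
  · intro q h
    apply hq (-q)
    rw [map_neg, h, neg_neg]
  · have e1 : ((NumberField.discr ℚ⟮x⟯).natAbs : ℝ) = absDisc x := by
      rw [Nat.cast_natAbs, Int.cast_abs]
      rfl
    have e2 : nn (sp (-(AdjoinSimple.gen ℚ x) : ℚ⟮x⟯)) = radNorm x := (finQ_rad _ hpt).symm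
    rw [e1, e2]
    apply hQ
    refine (finQ_hgt hpt).trans ?_
    rw [Height.logHeight₁_neg, h2]
    have e3 : absHeight x = Height.logHeight₁ (AdjoinSimple.gen ℚ x) / 2 := by
      unfold absHeight
      rw [h2]
      rfl
    rw [e3]
    push_cast
    linarith

private theorem finQ_card {S : Set Om} {B : ℝ} (h : ∀ F : Finset Om, (F : Set Om) ⊆ S →
    (F.card : ℝ) ≤ B) : S.Finite ∧ (S.ncard : ℝ) ≤ B := by
  have hfin : S.Finite := by
    by_contra hinf
    obtain ⟨G, hGV, hGc⟩ := Set.Infinite.exists_subset_card_eq hinf (⌊B⌋₊ + 1)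
    have h1 := h G hGV
    have h2 := Nat.lt_floor_add_one B
    rw [hGc] at h1
    push_cast at h1
    linarith
  refine ⟨hfin, ?_⟩
  rw [Set.ncard_eq_toFinset_card _ hfin]
  exact h hfin.toFinset (by rw [Set.Finite.coe_toFinset])

theorem finQ (ha : AllHeights) (hp : PolyHeights) :
    (∃ (C : ℝ) (k : ℕ), ∀ Y : ℝ, 16 ≤ Y → (QuadPts Y).Finite ∧
      ((QuadPts Y).ncard : ℝ) ≤ C * Y * Real.log (Real.log Y) ^ k) ∧
    ∀ A : ℝ, ∃ δ : ℝ, 0 < δ ∧ ∃ C : ℝ, ∀ Y : ℝ, 3 ≤ Y →
      ({x ∈ QuadPts Y | absHeight x ≤ Real.log Y ^ A}.ncard : ℝ) ≤ C * Y ^ (1 - δ) := by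
  classical
  have hneg : ∀ F : Finset Om, (F.image fun x => -x).card = F.card := fun F =>
    Finset.card_image_of_injective F neg_injective
  constructor
  · obtain ⟨C, hC0, k, hC⟩ := ha
    refine ⟨C, k, fun Y hY => finQ_card fun F hF => ?_⟩
    rw [← hneg F]
    apply hC Y hY
    intro z hz
    obtain ⟨x, hx, rfl⟩ := Finset.mem_image.1 hz
    have hx' := hF (Finset.mem_coe.2 hx)
    exact finQ_isQ hx' _ fun h _ => hx'.2
  · intro A
    obtain ⟨δ, hδ, C, hC0, hC⟩ := hp (max A 1) 4 (le_max_right _ _) (by norm_num)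
    refine ⟨δ, hδ, C, fun Y hY => (finQ_card fun F hF => ?_).2⟩
    have hY1 : 1 ≤ Y := by linarith
    rw [← hneg F]
    apply hC Y hY1
    intro z hz
    obtain ⟨x, hx, rfl⟩ := Finset.mem_image.1 hz
    have hx' := hF (Finset.mem_coe.2 hx)
    refine finQ_isQ hx'.1 _ fun h hh => ⟨hx'.1.2, ?_⟩
    have h1 : absHeight x ≤ Real.log Y ^ A := hx'.2
    have hlog : 1 ≤ Real.log Y := by
      rw [Real.le_log_iff_exp_le (by linarith)]
      have := Real.exp_one_lt_d9
      linarith
    have h2 : Real.log Y ^ A ≤ (1 + Real.log Y) ^ (max A 1) := by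
      refine (Real.rpow_le_rpow_of_exponent_le hlog (le_max_left A 1)).trans ?_
      exact Real.rpow_le_rpow (by linarith) (by linarith) (by positivity)
    have h3 : (1 : ℝ) ≤ (1 + Real.log Y) ^ (max A 1) :=
      Real.one_le_rpow (by linarith) (by positivity)
    have h4 : Real.log 2 ≤ 1 := by
      have := Real.log_two_lt_d9
      linarith
    linarith

end Pool.Agent.TH876.QD
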