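import Mathlib
import Pool.Agent.TH876.QD.Def

set_option autoImplicit false

namespace Pool.Agent.TH876.QD

open NumberField IsDedekindDomain Finset Pool.Agent.H691R3 Pool.Agent.TH876.Loc
open Pool.Agent.TH876.KR (side rr)

theorem perField (h1 : ManySmall) (h2 : FewSmall) : PerField := by
  intro n A M hA hM
  classical
  obtain ⟨κ, hκ⟩ : ∃ κ : ℝ, κ = 16 * (2 * A + 1) := ⟨_, rfl⟩
  have hκ1 : 1 ≤ κ := by rw [hκ]; linarith
  have hκ0 : 0 < κ := by linarith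
  obtain ⟨C1, hC1, H1⟩ := h1 n κ (1 / κ) hκ1 (by positivity) (by
    rw [div_le_one hκ0]; exact hκ1)
  obtain ⟨C2, hC2, H2⟩ := h2 n A M hA hM
  obtain ⟨δ, hδ⟩ : ∃ δ : ℝ, δ = min (1 / 16) (1 / κ / (4 * κ)) := ⟨_, rfl⟩
  have hδ0 : 0 < δ := by rw [hδ]; exact lt_min (by norm_num) (by positivity)
  have hδ1 : δ ≤ 1 / 16 := by rw [hδ]; exact min_le_left _ _
  have hδ2 : δ ≤ 1 / κ / (4 * κ) := by rw [hδ]; exact min_le_right _ _
  refine ⟨δ, hδ0, by linarith, C1 + C2, by positivity, ?_⟩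
  intro K _ _ hK X hX E hE
  have e1 := H1 K hK X hX (E.filter fun x => X ^ (1 / κ) ≤ nn (smallPart X κ (sp x))) (by
    intro x hx
    rw [mem_filter] at hx
    exact ⟨(hE x hx.1).1, (hE x hx.1).2.1, hx.2⟩)
  have e2 := H2 K hK X hX (E.filter fun x => ¬ X ^ (1 / κ) ≤ nn (smallPart X κ (sp x))) (by
    intro x hx
    rw [mem_filter] at hx
    refine ⟨(hE x hx.1).1, (hE x hx.1).2.1, (hE x hx.1).2.2, ?_⟩
    rw [← hκ]
    exact (not_le.mp hx.2).le)
  have e3 : (E.card : ℝ) = ((E.filter fun x => X ^ (1 / κ) ≤ nn (smallPart X κ (sp x))).card : ℝ) +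
      ((E.filter fun x => ¬ X ^ (1 / κ) ≤ nn (smallPart X κ (sp x))).card : ℝ) := by
    rw [← Nat.cast_add, Finset.card_filter_add_card_filter_not]
  have p1 : X ^ (1 - 1 / κ / (4 * κ)) ≤ X ^ (1 - δ) :=
    Real.rpow_le_rpow_of_exponent_le hX (by linarith)
  have p2 : X ^ ((15 : ℝ) / 16) ≤ X ^ (1 - δ) :=
    Real.rpow_le_rpow_of_exponent_le hX (by linarith)
  rw [e3, add_mul]
  exact add_le_add (e1.trans (mul_le_mul_of_nonneg_left p1 hC1.le))
    (e2.trans (mul_le_mul_of_nonneg_left p2 hC2.le))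

end Pool.Agent.TH876.QD
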