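import Mathlib
import Pool.Agent.TH876.QD.Def

set_option autoImplicit false

namespace Pool.Agent.TH876.QD

open NumberField IsDedekindDomain Finset Pool.Agent.H691R3 Pool.Agent.TH876.Loc
open Pool.Agent.TH876.KR (side rr)

private theorem polyH_sum (δ : ℝ) (h0 : 0 < δ) (h1 : δ ≤ 1) (N : ℕ) :
    ∑ d ∈ Finset.Icc 1 N, (d : ℝ) ^ (δ - 1) ≤ (N : ℝ) ^ δ / δ := by
  induction N with
  | zero => simp; positivity
  | succ N ih =>
    rw [Finset.sum_Icc_succ_top (by omega)]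
    have hN : (0 : ℝ) < ((N + 1 : ℕ) : ℝ) := by positivity
    have hN' : ((N + 1 : ℕ) : ℝ) = (N : ℝ) + 1 := by push_cast; ring
    have hb : (1 + (-(1 / ((N : ℝ) + 1)))) ^ δ ≤ 1 + δ * (-(1 / ((N : ℝ) + 1))) := by
      apply rpow_one_add_le_one_add_mul_self
      · rw [neg_le_neg_iff, div_le_one (by positivity)]
        have : (0 : ℝ) ≤ N := Nat.cast_nonneg N
        linarith
      · exact h0.le
      · exact h1
    have e1 : (N : ℝ) = ((N : ℝ) + 1) * (1 + (-(1 / ((N : ℝ) + 1)))) := by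
      field_simp
      ring
    have e2 : (N : ℝ) ^ δ = ((N : ℝ) + 1) ^ δ * (1 + (-(1 / ((N : ℝ) + 1)))) ^ δ := by
      conv_lhs => rw [e1]
      rw [Real.mul_rpow (by positivity)]
      have : 1 / ((N : ℝ) + 1) ≤ 1 := by
        rw [div_le_one (by positivity)]
        have : (0 : ℝ) ≤ N := Nat.cast_nonneg N
        linarith
      linarith
    have e3 : ((N : ℝ) + 1) ^ (δ - 1) = ((N : ℝ) + 1) ^ δ * (1 / ((N : ℝ) + 1)) := by
      rw [Real.rpow_sub_one (by positivity), div_eq_mul_one_div]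
    have hp : 0 < ((N : ℝ) + 1) ^ δ := by positivity
    have h3 : (N : ℝ) ^ δ + δ * ((N : ℝ) + 1) ^ (δ - 1) ≤ ((N : ℝ) + 1) ^ δ := by
      rw [e2, e3]
      nlinarith
    have h4 : (N : ℝ) ^ δ / δ + ((N : ℝ) + 1) ^ (δ - 1) ≤ ((N : ℝ) + 1) ^ δ / δ := by
      rw [le_div_iff₀ h0, add_mul, div_mul_cancel₀ _ h0.ne']
      linarith
    rw [hN']
    linarith

theorem polyHeights (hS : SumFields) (hP : PerField) (hR : SmallRad) : PolyHeights := by
  intro A M hA hM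
  classical
  obtain ⟨c, hc⟩ : ∃ c : ℝ, c = 1 / (4 * (4 * A + 2)) := ⟨_, rfl⟩
  have hA6 : 0 < 4 * (4 * A + 2) := by linarith
  have hc0 : 0 < c := by rw [hc]; positivity
  have hc1 : c < 1 := by
    rw [hc, div_lt_one hA6]
    linarith
  have hcA : c * (4 * A + 2) = 1 / 4 := by
    rw [hc]
    field_simp
  have hic : 1 ≤ 1 / c := by
    rw [le_div_iff₀ hc0]
    linarith
  obtain ⟨M', hM'⟩ : ∃ M' : ℝ, M' = M * (1 / c) ^ A := ⟨_, rfl⟩
  have hic2 : 1 ≤ (1 / c) ^ A := Real.one_le_rpow hic (by linarith)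
  have hM'1 : 1 ≤ M' := by
    rw [hM']
    nlinarith
  obtain ⟨δ1, hδ0, hδ1, C1, hC1, HP⟩ := hP 2 A M' hA hM'1
  obtain ⟨C2, hC2, HR⟩ := hR A M (1 / 4) hA hM (by norm_num)
  obtain ⟨δ, hδ⟩ : ∃ δ : ℝ, δ = min (1 / 2) (c * δ1) := ⟨_, rfl⟩
  have d0 : 0 < δ := by rw [hδ]; exact lt_min (by norm_num) (by positivity)
  have d1 : δ ≤ 1 / 2 := by rw [hδ]; exact min_le_left _ _
  have d2 : δ ≤ c * δ1 := by rw [hδ]; exact min_le_right _ _
  refine ⟨δ, d0, 2 * (C1 / δ1) + C2, by positivity, ?_⟩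
  intro Y hY F hF
  have hY0 : 0 < Y := by linarith
  have hlY : 0 ≤ Real.log Y := Real.log_nonneg hY
  obtain ⟨Z, hZ⟩ : ∃ Z : ℝ, Z = Y ^ (1 - c) := ⟨_, rfl⟩
  have hZ0 : 0 < Z := by rw [hZ]; positivity
  have hZ1 : 1 ≤ Z := by rw [hZ]; exact Real.one_le_rpow hY (by linarith)
  have hYZ : Y / Z = Y ^ c := by
    rw [hZ, div_eq_iff (by positivity), ← Real.rpow_add hY0]
    ring_nf
    rw [Real.rpow_one]
  have hnn : ∀ (L : IntermediateField ℚ Om) [NumberField L] (y : L), 0 ≤ nn (sp y) := by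
    intro L _ y
    exact (nn_pos _).le
  -- the two parts
  obtain ⟨Q1, hQ1⟩ : ∃ Q1 : ℝ → ℝ → ℝ → Prop, Q1 = fun d r h =>
    d * r ≤ Y ∧ h ≤ M * (1 + Real.log Y) ^ A ∧ d ≤ Z := ⟨_, rfl⟩
  have part : ∀ x ∈ F, ¬ IsQ Q1 x →
      IsQ (fun _ r h => r ≤ Y ^ c ∧ h ≤ M * (1 + Real.log Y) ^ A) x := by
    intro x hx hn
    obtain ⟨L, hL, y, hy, h2, h3, h4, h5, h6⟩ := hF x hx
    refine ⟨L, hL, y, hy, h2, h3, h4, ?_, h6⟩
    have h7 : Z < ((NumberField.discr L).natAbs : ℝ) := by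
      by_contra h8
      exact hn ⟨L, hL, y, hy, h2, h3, h4, by rw [hQ1]; exact ⟨h5, h6, not_lt.mp h8⟩⟩
    rw [← hYZ, le_div_iff₀ hZ0]
    have h9 := hnn L y
    nlinarith
  have c2 := HR (Y ^ c) Y (Real.one_le_rpow hY hc0.le) hY (F.filter fun x => ¬ IsQ Q1 x) (by
    intro x hx
    rw [mem_filter] at hx
    exact part x hx.1 hx.2)
  obtain ⟨b, hb⟩ : ∃ b : ℕ → ℝ, b = fun d : ℕ => C1 * (Y / (d : ℝ)) ^ (1 - δ1) := ⟨_, rfl⟩
  have c1 := hS Q1 Z b (by
      intro d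
      rw [hb]
      positivity) (by
      intro d r h hq
      rw [hQ1] at hq
      exact hq.2.2) (by
      intro L _ h2 E hE
      rcases E.eq_empty_or_nonempty with rfl | ⟨y0, hy0⟩
      · rw [hb]
        simp only [card_empty, Nat.cast_zero]
        positivity
      · have hd0 : (NumberField.discr L).natAbs ≠ 0 :=
          Int.natAbs_ne_zero.mpr (NumberField.discr_ne_zero L)
        have hd1 : (1 : ℝ) ≤ ((NumberField.discr L).natAbs : ℝ) := by
          exact_mod_cast Nat.one_le_iff_ne_zero.mpr hd0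
        have hdp : (0 : ℝ) < ((NumberField.discr L).natAbs : ℝ) := by linarith
        obtain ⟨d, hd⟩ : ∃ d : ℝ, d = ((NumberField.discr L).natAbs : ℝ) := ⟨_, rfl⟩
        have hdZ : d ≤ Z := by
          have := (hE y0 hy0).2
          rw [hQ1] at this
          rw [hd]
          exact this.2.2
        rw [← hd] at hd1 hdp
        have hX1 : Y ^ c ≤ Y / d := by
          rw [← hYZ]
          exact div_le_div_of_nonneg_left hY0.le hdp hdZ
        have hYc : 1 ≤ Y ^ c := Real.one_le_rpow hY hc0.le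
        have hX : 1 ≤ Y / d := hYc.trans hX1
        have hlog : c * Real.log Y ≤ Real.log (Y / d) := by
          rw [← Real.log_rpow hY0]
          exact Real.log_le_log (by positivity) hX1
        have h1l : 1 + Real.log Y ≤ 1 / c * (1 + Real.log (Y / d)) := by
          rw [div_mul_eq_mul_div, one_mul, le_div_iff₀ hc0]
          nlinarith
        have hh : M * (1 + Real.log Y) ^ A ≤ M' * (1 + Real.log (Y / d)) ^ A := by
          rw [hM', mul_assoc, ← Real.mul_rpow (by positivity) (by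
            have := Real.log_nonneg hX
            linarith)]
          exact mul_le_mul_of_nonneg_left
            (Real.rpow_le_rpow (by linarith) h1l (by linarith)) (by linarith)
        have key := HP L h2 (Y / d) hX E (by
          intro y hy
          have h5 := (hE y hy).2
          rw [hQ1] at h5
          refine ⟨(hE y hy).1, ?_, h5.2.1.trans hh⟩
          rw [le_div_iff₀ hdp, mul_comm, hd]
          exact h5.1)
        rw [hb]
        simp only
        rw [← hd]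
        exact key) (F.filter fun x => IsQ Q1 x) (by
      intro x hx
      rw [mem_filter] at hx
      exact hx.2)
  have e3 : (F.card : ℝ) = ((F.filter fun x => IsQ Q1 x).card : ℝ) +
      ((F.filter fun x => ¬ IsQ Q1 x).card : ℝ) := by
    rw [← Nat.cast_add, Finset.card_filter_add_card_filter_not]
  have s1 : ∑ d ∈ Finset.Icc 1 ⌊Z⌋₊, b d ≤ C1 / δ1 * Y ^ (1 - δ) := by
    have s2 : ∀ d ∈ Finset.Icc 1 ⌊Z⌋₊, b d = C1 * Y ^ (1 - δ1) * (d : ℝ) ^ (δ1 - 1) := by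
      intro d hd
      have hd1 : 0 < (d : ℝ) := by
        have := (Finset.mem_Icc.mp hd).1
        exact_mod_cast this
      rw [hb]
      simp only
      rw [Real.div_rpow hY0.le hd1.le, mul_assoc, div_eq_mul_inv, ← Real.rpow_neg hd1.le]
      congr 3
      ring
    rw [Finset.sum_congr rfl s2, ← Finset.mul_sum]
    have s3 := polyH_sum δ1 hδ0 hδ1.le ⌊Z⌋₊
    have s4 : ((⌊Z⌋₊ : ℕ) : ℝ) ^ δ1 ≤ Z ^ δ1 :=
      Real.rpow_le_rpow (Nat.cast_nonneg _) (Nat.floor_le hZ0.le) hδ0.le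
    have s5 : Y ^ (1 - δ1) * Z ^ δ1 = Y ^ (1 - c * δ1) := by
      rw [hZ, ← Real.rpow_mul hY0.le, ← Real.rpow_add hY0]
      congr 1
      ring
    have s6 : Y ^ (1 - c * δ1) ≤ Y ^ (1 - δ) :=
      Real.rpow_le_rpow_of_exponent_le hY (by linarith)
    calc C1 * Y ^ (1 - δ1) * ∑ d ∈ Finset.Icc 1 ⌊Z⌋₊, (d : ℝ) ^ (δ1 - 1)
        ≤ C1 * Y ^ (1 - δ1) * (Z ^ δ1 / δ1) := by
          refine mul_le_mul_of_nonneg_left (s3.trans ?_) (by positivity)
          exact div_le_div_of_nonneg_right s4 hδ0.le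
      _ = C1 / δ1 * (Y ^ (1 - δ1) * Z ^ δ1) := by ring
      _ = C1 / δ1 * Y ^ (1 - c * δ1) := by rw [s5]
      _ ≤ C1 / δ1 * Y ^ (1 - δ) := mul_le_mul_of_nonneg_left s6 (by positivity)
  have s7 : C2 * Y ^ (1 / 4 : ℝ) * (Y ^ c) ^ (4 * A + 2) ≤ C2 * Y ^ (1 - δ) := by
    rw [← Real.rpow_mul hY0.le, hcA, mul_assoc, ← Real.rpow_add hY0]
    exact mul_le_mul_of_nonneg_left (Real.rpow_le_rpow_of_exponent_le hY (by linarith)) hC2.le
  rw [e3]
  calc _ ≤ 2 * ∑ d ∈ Finset.Icc 1 ⌊Z⌋₊, b d + C2 * Y ^ (1 / 4 : ℝ) * (Y ^ c) ^ (4 * A + 2) :=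
        add_le_add c1 c2
    _ ≤ 2 * (C1 / δ1 * Y ^ (1 - δ)) + C2 * Y ^ (1 - δ) := by linarith
    _ = _ := by ring

end Pool.Agent.TH876.QD
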