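import Mathlib
import Pool.Agent.TH876.QD.Def

set_option autoImplicit false

/-!
# Sets of primes with few small ones
-/

namespace Pool.Agent.TH876.QD

open NumberField IsDedekindDomain Finset Pool.Agent.H691R3 Pool.Agent.TH876.Loc
open Pool.Agent.TH876.KR (side rr)

/-- the number of primes of norm at most `Z` -/
theorem SetC_card_small {K : Type} [Field K] [NumberField K] (Z : ℝ) (hZ : 0 ≤ Z) (F : Finset (Pr K))
    (hF : ∀ v ∈ F, Nv v ≤ Z) : (F.card : ℝ) ≤ (Module.finrank ℚ K) * Z := by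
  classical
  have h1 : F.card ≤ Module.finrank ℚ K * (F.image pv).card := by
    refine Finset.card_le_mul_card_image F _ ?_
    intro p _
    exact card_above p _ fun v hv => (Finset.mem_filter.1 hv).2
  have h2 : (F.image pv).card ≤ (Finset.Icc 1 ⌊Z⌋₊).card := by
    refine Finset.card_le_card fun p hp => ?_
    obtain ⟨v, hv, rfl⟩ := Finset.mem_image.1 hp
    rw [Finset.mem_Icc]
    exact ⟨(pv_prime v).pos, Nat.le_floor ((pv_le_Nv v).trans (hF v hv))⟩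
  rw [Nat.card_Icc, Nat.add_sub_cancel] at h2
  have h3 : ((F.image pv).card : ℝ) ≤ Z := by
    have h4 : ((F.image pv).card : ℝ) ≤ ⌊Z⌋₊ := by exact_mod_cast h2
    exact h4.trans (Nat.floor_le hZ)
  calc (F.card : ℝ) ≤ (Module.finrank ℚ K : ℝ) * ((F.image pv).card : ℝ) := by exact_mod_cast h1
    _ ≤ _ := mul_le_mul_of_nonneg_left h3 (Nat.cast_nonneg _)

theorem SetC_prod_le {K : Type} [Field K] [NumberField K] (s : Finset (Pr K)) (c e : ℝ) (hc : 0 ≤ c)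
    (h : ∀ v ∈ s, c ≤ Nv v ^ e) : c ^ s.card ≤ nn s ^ e := by
  classical
  rw [← Finset.prod_const]
  unfold nn
  rw [← Real.finsetProd_rpow s _ (fun v _ => (Nv_pos v).le) e]
  exact Finset.prod_le_prod (fun _ _ => hc) h

/-- the powers of `M` -/
theorem SetC_M (n : ℕ) (M ε : ℝ) (hM : 1 ≤ M) (hε : 0 < ε) : ∃ C : ℝ, 0 < C ∧
    ∀ (K : Type) [Field K] [NumberField K], Module.finrank ℚ K = n → ∀ s : Finset (Pr K),
      M ^ s.card ≤ C * nn s ^ ε := by
  classical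
  have hM0 : 0 < M := by linarith
  refine ⟨M ^ ((n : ℝ) * M ^ (1 / ε)), Real.rpow_pos_of_pos hM0 _, ?_⟩
  intro K _ _ hn s
  have h1 : M ^ s.card = M ^ (s.filter fun v => Nv v ≤ M ^ (1 / ε)).card *
      M ^ (s.filter fun v => ¬ Nv v ≤ M ^ (1 / ε)).card := by
    rw [← pow_add, Finset.card_filter_add_card_filter_not]
  rw [h1]
  have h2 : M ^ (s.filter fun v => Nv v ≤ M ^ (1 / ε)).card ≤ M ^ ((n : ℝ) * M ^ (1 / ε)) := by
    rw [← Real.rpow_natCast]
    refine Real.rpow_le_rpow_of_exponent_le hM ?_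
    rw [← hn]
    exact SetC_card_small _ (Real.rpow_nonneg hM0.le _) _ fun v hv => (Finset.mem_filter.1 hv).2
  have h3 : M ^ (s.filter fun v => ¬ Nv v ≤ M ^ (1 / ε)).card ≤ nn s ^ ε := by
    refine (SetC_prod_le _ M ε hM0.le ?_).trans ?_
    · intro v hv
      have h4 := (Finset.mem_filter.1 hv).2
      rw [not_le] at h4
      have h5 := Real.rpow_le_rpow (Real.rpow_nonneg hM0.le _) h4.le hε.le
      rw [← Real.rpow_mul hM0.le, one_div, inv_mul_cancel₀ hε.ne', Real.rpow_one] at h5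
      exact h5
    · exact Real.rpow_le_rpow (nn_pos _).le (nn_mono (Finset.filter_subset _ _)) hε.le
  exact mul_le_mul h2 h3 (by positivity) (Real.rpow_nonneg hM0.le _)

/-- an elementary inequality -/
theorem SetC_young (D ε y : ℝ) (hD : 0 ≤ D) (hε : 0 < ε) (hy : 0 ≤ y) :
    D * y ^ 3 ≤ ε * y ^ 4 + D ^ 4 / ε ^ 3 := by
  rcases le_total D (ε * y) with h | h
  · have h1 : D * y ^ 3 ≤ (ε * y) * y ^ 3 := mul_le_mul_of_nonneg_right h (by positivity)
    have h2 : 0 ≤ D ^ 4 / ε ^ 3 := by positivity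
    nlinarith
  · have h1 : y ≤ D / ε := by
      rw [le_div_iff₀ hε]
      linarith
    have h2 : D * y ^ 3 ≤ D * (D / ε) ^ 3 := mul_le_mul_of_nonneg_left (pow_le_pow_left₀ hy h1 3) hD
    have h3 : D * (D / ε) ^ 3 = D ^ 4 / ε ^ 3 := by
      field_simp
    have h4 : 0 ≤ ε * y ^ 4 := by positivity
    linarith

/-- the number of very small primes -/
theorem SetC_log (n : ℕ) (a ε : ℝ) (ha : 0 ≤ a) (hε : 0 < ε) : ∃ C : ℝ, 0 < C ∧ ∀ X : ℝ, 1 ≤ X →
    ((1 + Real.log X) ^ a) ^ ((n : ℝ) * (1 + Real.log X) ^ (1 / 2 : ℝ)) ≤ C * X ^ ε := by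
  obtain ⟨D, hD⟩ : ∃ D : ℝ, D = 4 * a * n := ⟨_, rfl⟩
  have hD0 : 0 ≤ D := by rw [hD]; positivity
  refine ⟨Real.exp (ε + D ^ 4 / ε ^ 3), Real.exp_pos _, ?_⟩
  intro X hX
  have hX0 : 0 < X := by linarith
  have hL : 0 ≤ Real.log X := Real.log_nonneg hX
  obtain ⟨Y, hY⟩ : ∃ Y : ℝ, Y = 1 + Real.log X := ⟨_, rfl⟩
  rw [← hY]
  have hY1 : 1 ≤ Y := by rw [hY]; linarith
  have hY0 : 0 < Y := by linarith
  obtain ⟨y, hy⟩ : ∃ y : ℝ, y = Y ^ (1 / 4 : ℝ) := ⟨_, rfl⟩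
  have hy0 : 0 ≤ y := by rw [hy]; exact Real.rpow_nonneg hY0.le _
  have hy4 : y ^ 4 = Y := by
    rw [hy, ← Real.rpow_natCast, ← Real.rpow_mul hY0.le]
    norm_num
  have hy2 : Y ^ (1 / 2 : ℝ) = y ^ 2 := by
    rw [hy, ← Real.rpow_natCast, ← Real.rpow_mul hY0.le]
    norm_num
  have hlog : Real.log Y ≤ 4 * y := by
    have h1 := Real.log_le_rpow_div hY0.le (show (0 : ℝ) < 1 / 4 by norm_num)
    rw [← hy] at h1
    linarith
  rw [← Real.rpow_mul hY0.le, Real.rpow_def_of_pos hY0, hy2, Real.rpow_def_of_pos hX0, ← Real.exp_add]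
  apply Real.exp_le_exp.2
  calc Real.log Y * (a * (n * y ^ 2)) ≤ (4 * y) * (a * (n * y ^ 2)) :=
        mul_le_mul_of_nonneg_right hlog (by positivity)
    _ = D * y ^ 3 := by rw [hD]; ring
    _ ≤ ε * y ^ 4 + D ^ 4 / ε ^ 3 := SetC_young D ε y hD0 hε hy0
    _ = ε + D ^ 4 / ε ^ 3 + Real.log X * ε := by rw [hy4, hY]; ring

/-- the weight of one set -/
theorem SetC_weight (n : ℕ) (a M : ℝ) (ha : 1 ≤ a) (hM : 1 ≤ M) : ∃ C : ℝ, 0 < C ∧
    ∀ (K : Type) [Field K] [NumberField K], Module.finrank ℚ K = n → ∀ X : ℝ, 1 ≤ X →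
      ∀ s : Finset (Pr K), nn s ≤ X ^ ((2 : ℝ) / 3) →
        nn (smallPart X (16 * (a + 1)) s) ≤ X ^ (1 / (16 * (a + 1))) →
        (M * (1 + Real.log X) ^ a) ^ s.card ≤ C * X ^ ((3 : ℝ) / 16) := by
  classical
  obtain ⟨C1, hC1, h1⟩ := SetC_M n M (1 / 96) hM (by norm_num)
  obtain ⟨C2, hC2, h2⟩ := SetC_log n a (1 / 96) (by linarith) (by norm_num)
  refine ⟨C1 * C2, by positivity, ?_⟩
  intro K _ _ hn X hX s hs hsmall
  have hX0 : 0 < X := by linarith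
  have hL : 0 ≤ Real.log X := Real.log_nonneg hX
  obtain ⟨Y, hY⟩ : ∃ Y : ℝ, Y = 1 + Real.log X := ⟨_, rfl⟩
  have hY1 : 1 ≤ Y := by rw [hY]; linarith
  have hY0 : 0 < Y := by linarith
  obtain ⟨κ, hκ⟩ : ∃ κ : ℝ, κ = 16 * (a + 1) := ⟨_, rfl⟩
  have hκ0 : 0 < κ := by rw [hκ]; linarith
  obtain ⟨V, hV⟩ : ∃ V : ℝ, V = Y ^ a := ⟨_, rfl⟩
  have hV1 : 1 ≤ V := by rw [hV]; exact Real.one_le_rpow hY1 (by linarith)
  have hV0 : 0 < V := by linarith
  have hsX : nn s ≤ X := by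
    refine hs.trans ?_
    calc X ^ ((2 : ℝ) / 3) ≤ X ^ (1 : ℝ) := Real.rpow_le_rpow_of_exponent_le hX (by norm_num)
      _ = X := Real.rpow_one X
  have e2 := h2 X hX
  rw [← hY, ← hV] at e2
  rw [← hκ] at hsmall
  unfold smallPart at hsmall
  rw [← hY] at hsmall ⊢
  rw [← hV, mul_pow]
  -- M
  have e1 : M ^ s.card ≤ C1 * X ^ (1 / 96 : ℝ) := by
    refine (h1 K hn s).trans ?_
    refine mul_le_mul_of_nonneg_left ?_ hC1.le
    exact Real.rpow_le_rpow (nn_pos _).le hsX (by norm_num)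
  -- V
  obtain ⟨sm, hsm⟩ : ∃ sm : Finset (Pr K), sm = s.filter (fun v => Nv v ≤ Y ^ κ) := ⟨_, rfl⟩
  obtain ⟨la, hla⟩ : ∃ la : Finset (Pr K), la = s.filter (fun v => ¬ Nv v ≤ Y ^ κ) := ⟨_, rfl⟩
  obtain ⟨ti, hti⟩ : ∃ ti : Finset (Pr K), ti = sm.filter (fun v => Nv v ≤ Y ^ (1 / 2 : ℝ)) := ⟨_, rfl⟩
  obtain ⟨mi, hmi⟩ : ∃ mi : Finset (Pr K), mi = sm.filter (fun v => ¬ Nv v ≤ Y ^ (1 / 2 : ℝ)) := ⟨_, rfl⟩
  have hsplit : V ^ s.card = V ^ ti.card * V ^ mi.card * V ^ la.card := by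
    rw [← pow_add, ← pow_add, hti, hmi, Finset.card_filter_add_card_filter_not, hsm, hla,
      Finset.card_filter_add_card_filter_not]
  have hsm' : nn sm ≤ X ^ (1 / κ) := by
    rw [hsm]
    convert hsmall
  -- tiny
  have f1 : V ^ ti.card ≤ C2 * X ^ (1 / 96 : ℝ) := by
    refine le_trans ?_ e2
    rw [← Real.rpow_natCast]
    refine Real.rpow_le_rpow_of_exponent_le hV1 ?_
    rw [← hn]
    refine SetC_card_small _ (Real.rpow_nonneg hY0.le _) _ fun v hv => ?_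
    rw [hti] at hv
    exact (Finset.mem_filter.1 hv).2
  -- mid
  have f2 : V ^ mi.card ≤ X ^ (1 / 8 : ℝ) := by
    refine (SetC_prod_le mi V (2 * a) hV0.le ?_).trans ?_
    · intro v hv
      rw [hmi] at hv
      have h4 := (Finset.mem_filter.1 hv).2
      rw [not_le] at h4
      have h5 := Real.rpow_le_rpow (Real.rpow_nonneg hY0.le _) h4.le (show (0 : ℝ) ≤ 2 * a by linarith)
      rw [← Real.rpow_mul hY0.le] at h5
      have h6 : (1 / 2 : ℝ) * (2 * a) = a := by ring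
      rw [h6] at h5
      rw [hV]
      exact h5
    · have h6 : nn mi ≤ X ^ (1 / κ) := by
        refine le_trans (nn_mono ?_) hsm'
        rw [hmi]
        exact Finset.filter_subset _ _
      refine (Real.rpow_le_rpow (nn_pos _).le h6 (show (0 : ℝ) ≤ 2 * a by linarith)).trans ?_
      rw [← Real.rpow_mul hX0.le]
      refine Real.rpow_le_rpow_of_exponent_le hX ?_
      rw [hκ, div_mul_eq_mul_div, one_mul, div_le_div_iff₀ (by linarith) (by norm_num)]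
      linarith
  -- large
  have f3 : V ^ la.card ≤ X ^ (1 / 24 : ℝ) := by
    refine (SetC_prod_le la V (a / κ) hV0.le ?_).trans ?_
    · intro v hv
      rw [hla] at hv
      have h4 := (Finset.mem_filter.1 hv).2
      rw [not_le] at h4
      have h5 := Real.rpow_le_rpow (Real.rpow_nonneg hY0.le _) h4.le (show (0 : ℝ) ≤ a / κ by positivity)
      rw [← Real.rpow_mul hY0.le] at h5
      have h6 : κ * (a / κ) = a := by field_simp
      rw [h6] at h5
      rw [hV]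
      exact h5
    · have h6 : nn la ≤ X ^ ((2 : ℝ) / 3) := by
        refine le_trans (nn_mono ?_) hs
        rw [hla]
        exact Finset.filter_subset _ _
      refine (Real.rpow_le_rpow (nn_pos _).le h6 (show (0 : ℝ) ≤ a / κ by positivity)).trans ?_
      rw [← Real.rpow_mul hX0.le]
      refine Real.rpow_le_rpow_of_exponent_le hX ?_
      rw [hκ, ← mul_div_assoc, div_le_div_iff₀ (by linarith) (by norm_num)]
      linarith
  rw [hsplit]
  have hx : ∀ t : ℝ, 0 < X ^ t := fun t => Real.rpow_pos_of_pos hX0 t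
  calc M ^ s.card * (V ^ ti.card * V ^ mi.card * V ^ la.card) ≤
      (C1 * X ^ (1 / 96 : ℝ)) * ((C2 * X ^ (1 / 96 : ℝ)) * X ^ (1 / 8 : ℝ) * X ^ (1 / 24 : ℝ)) := by
        gcongr
    _ = C1 * C2 * (X ^ (1 / 96 : ℝ) * X ^ (1 / 96 : ℝ) * X ^ (1 / 8 : ℝ) * X ^ (1 / 24 : ℝ)) := by ring
    _ = C1 * C2 * X ^ ((3 : ℝ) / 16) := by
        rw [← Real.rpow_add hX0, ← Real.rpow_add hX0, ← Real.rpow_add hX0]
        norm_num

/-- powers of logarithms -/
theorem SetC_pow (k : ℕ) (ε : ℝ) (hε : 0 < ε) : ∃ C : ℝ, 0 < C ∧ ∀ X : ℝ, 1 ≤ X →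
    Real.log (max X 3) ^ k ≤ C * X ^ ε := by
  refine ⟨(k.factorial : ℝ) / ε ^ k * Real.exp (2 * ε), by positivity, ?_⟩
  intro X hX
  have hX0 : 0 < X := by linarith
  have hL : 0 ≤ Real.log X := Real.log_nonneg hX
  have h1 : Real.log (max X 3) ≤ Real.log X + 2 := by
    have h2 : Real.log (max X 3) ≤ Real.log (X * 3) := by
      apply Real.log_le_log (lt_of_lt_of_le hX0 (le_max_left _ _))
      apply max_le <;> linarith
    rw [Real.log_mul hX0.ne' (by norm_num)] at h2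
    have h3 : Real.log 3 ≤ 3 - 1 := Real.log_le_sub_one_of_pos (by norm_num)
    linarith
  have h0 : 0 ≤ Real.log (max X 3) := Real.log_nonneg (le_trans hX (le_max_left _ _))
  have h2 := Real.pow_div_factorial_le_exp (ε * (Real.log X + 2)) (by positivity) k
  rw [div_le_iff₀ (by positivity), mul_pow] at h2
  have h3 : Real.log (max X 3) ^ k ≤ (Real.log X + 2) ^ k := pow_le_pow_left₀ h0 h1 k
  refine h3.trans ?_
  have h4 : Real.exp (ε * (Real.log X + 2)) = X ^ ε * Real.exp (2 * ε) := by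
    rw [Real.rpow_def_of_pos hX0, ← Real.exp_add]
    congr 1
    ring
  rw [h4] at h2
  have h5 : 0 < ε ^ k := by positivity
  calc (Real.log X + 2) ^ k = (ε ^ k * (Real.log X + 2) ^ k) / ε ^ k := by field_simp
    _ ≤ (X ^ ε * Real.exp (2 * ε) * k.factorial) / ε ^ k := div_le_div_of_nonneg_right h2 h5.le
    _ = _ := by ring

/-- the number of sets -/
theorem SetC_count (n : ℕ) : ∃ C : ℝ, 0 < C ∧
    ∀ (K : Type) [Field K] [NumberField K], Module.finrank ℚ K = n → ∀ X : ℝ, 1 ≤ X →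
      ∀ U : Finset (Finset (Pr K)), (∀ s ∈ U, nn s ≤ X ^ ((2 : ℝ) / 3)) →
      (U.card : ℝ) ≤ C * X ^ ((11 : ℝ) / 16) := by
  classical
  obtain ⟨c, k, hc, h1⟩ := sum_pow_card n 1 le_rfl
  obtain ⟨C, hC, h2⟩ := SetC_pow k (1 / 48) (by norm_num)
  refine ⟨c * C, by positivity, ?_⟩
  intro K _ _ hn X hX U hU
  have hX0 : 0 < X := by linarith
  have h3 := h1 K hn (max X 3) (le_max_right _ _) U (fun s hs v hv => by
    refine (Nv_le_nn hv).trans ((hU s hs).trans ?_)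
    refine le_trans ?_ (le_max_left _ _)
    calc X ^ ((2 : ℝ) / 3) ≤ X ^ (1 : ℝ) := Real.rpow_le_rpow_of_exponent_le hX (by norm_num)
      _ = X := Real.rpow_one X)
  have h4 : (U.card : ℝ) ≤ ∑ s ∈ U, X ^ ((2 : ℝ) / 3) * ∏ v ∈ s, (1 / Nv v) := by
    rw [Finset.card_eq_sum_ones]
    push_cast
    refine Finset.sum_le_sum fun s hs => ?_
    have h5 : ∏ v ∈ s, (1 / Nv v) = 1 / nn s := by
      unfold nn
      rw [Finset.prod_div_distrib, Finset.prod_const_one]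
    rw [h5, mul_one_div, le_div_iff₀ (nn_pos s), one_mul]
    exact hU s hs
  rw [← Finset.mul_sum] at h4
  calc (U.card : ℝ) ≤ X ^ ((2 : ℝ) / 3) * ∑ s ∈ U, ∏ v ∈ s, (1 / Nv v) := h4
    _ ≤ X ^ ((2 : ℝ) / 3) * (c * Real.log (max X 3) ^ k) :=
        mul_le_mul_of_nonneg_left h3 (Real.rpow_nonneg hX0.le _)
    _ ≤ X ^ ((2 : ℝ) / 3) * (c * (C * X ^ (1 / 48 : ℝ))) := by
        refine mul_le_mul_of_nonneg_left ?_ (Real.rpow_nonneg hX0.le _)
        exact mul_le_mul_of_nonneg_left (h2 X hX) hc.le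
    _ = c * C * (X ^ ((2 : ℝ) / 3) * X ^ (1 / 48 : ℝ)) := by ring
    _ = c * C * X ^ ((11 : ℝ) / 16) := by
        rw [← Real.rpow_add hX0]
        norm_num

theorem setCount : SetCount := by
  classical
  intro n a M ha hM
  obtain ⟨C1, hC1, h1⟩ := SetC_weight n a M ha hM
  obtain ⟨C2, hC2, h2⟩ := SetC_count n
  refine ⟨C1 * C2, by positivity, ?_⟩
  intro K _ _ hn X hX U hU
  have hX0 : 0 < X := by linarith
  calc ∑ s ∈ U, (M * (1 + Real.log X) ^ a) ^ s.card ≤ ∑ s ∈ U, C1 * X ^ ((3 : ℝ) / 16) :=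
        Finset.sum_le_sum fun s hs => h1 K hn X hX s (hU s hs).1 (hU s hs).2
    _ = (U.card : ℝ) * (C1 * X ^ ((3 : ℝ) / 16)) := by rw [Finset.sum_const, nsmul_eq_mul]
    _ ≤ (C2 * X ^ ((11 : ℝ) / 16)) * (C1 * X ^ ((3 : ℝ) / 16)) := by
        refine mul_le_mul_of_nonneg_right (h2 K hn X hX U fun s hs => (hU s hs).1) ?_
        positivity
    _ = C1 * C2 * (X ^ ((11 : ℝ) / 16) * X ^ ((3 : ℝ) / 16)) := by ring
    _ = C1 * C2 * X ^ ((7 : ℝ) / 8) := by
        rw [← Real.rpow_add hX0]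
        norm_num

end Pool.Agent.TH876.QD
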