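import Mathlib
import Pool.Agent.TH876.QD.Def

set_option autoImplicit false

/-!
# Few quadratic points with a small radical
-/

namespace Pool.Agent.TH876.QD

open NumberField IsDedekindDomain Finset Pool.Agent.H691R3 Pool.Agent.TH876.Loc
open Pool.Agent.TH876.KR (side rr)

section Norms

variable {K : Type} [Field K] [NumberField K]

/-- norms of primes are powers of rational primes -/
private theorem smallR_Nv (v : Pr K) : ∃ f : ℕ, Nv v = (pv v : ℝ) ^ f := by
  have hv : v.asIdeal.IsPrime := v.isPrime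
  have h1 : Ideal.under ℤ v.asIdeal ≠ ⊥ := by
    intro h
    have h2 := pv_prime v
    unfold pv at h2
    rw [h, Ideal.absNorm_bot] at h2
    exact Nat.not_prime_zero h2
  have h := Ideal.absNorm_eq_pow_inertiaDeg'_of_liesOver v.asIdeal (Ideal.under ℤ v.asIdeal)
    inferInstance h1
  refine ⟨(Ideal.under ℤ v.asIdeal).inertiaDeg' v.asIdeal, ?_⟩
  unfold Nv pv
  rw [h]
  push_cast
  rfl

/-- the product of the primes below is at most the product of the norms -/
private theorem smallR_prod_le (s : Finset (Pr K)) : ∏ p ∈ s.image pv, (p : ℝ) ≤ nn s := by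
  classical
  induction s using Finset.induction_on with
  | empty => simp [nn]
  | insert v s hv ih =>
    have h1 : nn (insert v s) = Nv v * nn s := by
      unfold nn
      rw [Finset.prod_insert hv]
    rw [Finset.image_insert, h1]
    by_cases h : pv v ∈ s.image pv
    · rw [Finset.insert_eq_of_mem h]
      refine ih.trans ?_
      nlinarith [one_le_Nv v, nn_pos s]
    · rw [Finset.prod_insert h]
      exact mul_le_mul (pv_le_Nv v) ih (Finset.prod_nonneg fun _ _ => Nat.cast_nonneg _)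
        (Nv_pos v).le

open Classical in
/-- the norm is a product of powers of the primes below the bad primes -/
private theorem smallR_exps {y : K} (hy : Pt y) (i : Fin 3) :
    ∃ e : ℕ → ℤ, Real.log |((Algebra.norm ℚ (L i y) : ℚ) : ℝ)| =
        ∑ p ∈ (sp y).image pv, (e p : ℝ) * Real.log p ∧
      ∀ p ∈ (sp y).image pv, |(e p : ℝ)| * Real.log p ≤ 2 * hgt y := by
  have hz := L_ne hy i
  choose a ha using fun v : Pr K => log_fv v hz
  choose f hf using fun v : Pr K => smallR_Nv v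
  have hlg : ∀ v : Pr K, lg (Sum.inr v : Pl K) (L i y) =
      ((a v * f v : ℤ) : ℝ) * Real.log (pv v : ℝ) := by
    intro v
    show 1 * Real.log (fv v (L i y)) = _
    rw [ha v, hf v, Real.log_pow]
    push_cast
    ring
  have hnorm : Real.log |((Algebra.norm ℚ (L i y) : ℚ) : ℝ)| =
      ∑ w : InfinitePlace K, lg (Sum.inl w : Pl K) (L i y) := by
    have h1 := InfinitePlace.prod_eq_abs_norm (L i y)
    have h2 : |((Algebra.norm ℚ (L i y) : ℚ) : ℝ)| = ∏ w : InfinitePlace K, w (L i y) ^ w.mult := by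
      rw [h1]
      push_cast
      rfl
    rw [h2, Real.log_prod]
    · refine Finset.sum_congr rfl fun w _ => ?_
      rw [Real.log_pow]
      rfl
    · intro w _
      refine pow_ne_zero _ ?_
      exact (map_ne_zero w).2 hz
  have hsum := sum_lgL hy (Finset.Subset.refl (sp y)) i
  rw [sum_Spl, ← hnorm] at hsum
  have hlog0 : ∀ v : Pr K, 0 ≤ Real.log (pv v : ℝ) := fun v => Real.log_natCast_nonneg _
  refine ⟨fun p => -∑ v ∈ (sp y).filter (fun v => pv v = p), (a v * f v : ℤ), ?_, ?_⟩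
  · have h3 : ∑ v ∈ sp y, lg (Sum.inr v : Pl K) (L i y) =
        ∑ p ∈ (sp y).image pv, ∑ v ∈ (sp y).filter (fun v => pv v = p),
          lg (Sum.inr v : Pl K) (L i y) :=
      (Finset.sum_fiberwise_of_maps_to (fun v hv => Finset.mem_image_of_mem _ hv) _).symm
    have h4 : Real.log |((Algebra.norm ℚ (L i y) : ℚ) : ℝ)| =
        -∑ v ∈ sp y, lg (Sum.inr v : Pl K) (L i y) := by linarith
    rw [h4, h3, ← Finset.sum_neg_distrib]
    refine Finset.sum_congr rfl fun p _ => ?_
    push_cast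
    rw [neg_mul, Finset.sum_mul]
    congr 1
    refine Finset.sum_congr rfl fun v hv => ?_
    rw [hlg v, (Finset.mem_filter.1 hv).2]
    push_cast
    ring
  · intro p _
    have hp0 : 0 ≤ Real.log (p : ℝ) := Real.log_natCast_nonneg _
    have h5 : |((-∑ v ∈ (sp y).filter (fun v => pv v = p), (a v * f v : ℤ) : ℤ) : ℝ)| *
        Real.log (p : ℝ) ≤ ∑ v ∈ (sp y).filter (fun v => pv v = p),
          |lg (Sum.inr v : Pl K) (L i y)| := by
      rw [Int.cast_neg, abs_neg, Int.cast_sum]
      calc |∑ v ∈ (sp y).filter (fun v => pv v = p), ((a v * f v : ℤ) : ℝ)| * Real.log (p : ℝ)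
          ≤ (∑ v ∈ (sp y).filter (fun v => pv v = p), |((a v * f v : ℤ) : ℝ)|) *
            Real.log (p : ℝ) :=
            mul_le_mul_of_nonneg_right (Finset.abs_sum_le_sum_abs _ _) hp0
        _ = ∑ v ∈ (sp y).filter (fun v => pv v = p), |lg (Sum.inr v : Pl K) (L i y)| := by
            rw [Finset.sum_mul]
            refine Finset.sum_congr rfl fun v hv => ?_
            rw [hlg v, abs_mul, (Finset.mem_filter.1 hv).2, abs_of_nonneg hp0]
    refine h5.trans ?_
    have h6 : ∑ v ∈ (sp y).filter (fun v => pv v = p), |lg (Sum.inr v : Pl K) (L i y)| ≤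
        ∑ v ∈ sp y, |lg (Sum.inr v : Pl K) (L i y)| :=
      Finset.sum_le_sum_of_subset_of_nonneg (Finset.filter_subset _ _) fun _ _ _ => abs_nonneg _
    refine h6.trans ?_
    have h7 : ∑ v ∈ sp y, |lg (Sum.inr v : Pl K) (L i y)| ≤
        ∑ v ∈ sp y, (mx (Sum.inr v : Pl K) y + df (Sum.inr v : Pl K) i y) := by
      refine Finset.sum_le_sum fun v _ => ?_
      have e1 : lg (Sum.inr v : Pl K) (L i y) = mx (Sum.inr v : Pl K) y -
        df (Sum.inr v : Pl K) i y := by unfold df; ring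
      have e2 := mx_nonneg (Sum.inr v : Pl K) y
      have e3 := df_nonneg (Sum.inr v : Pl K) i hy
      rw [e1, abs_le]
      constructor <;> linarith
    refine h7.trans ?_
    rw [Finset.sum_add_distrib]
    have h8 : ∑ v ∈ sp y, mx (Sum.inr v : Pl K) y ≤ hgt y := by
      unfold hgt
      rw [sum_Spl]
      have : 0 ≤ ∑ w : InfinitePlace K, mx (Sum.inl w : Pl K) y :=
        Finset.sum_nonneg fun w _ => mx_nonneg _ _
      linarith
    have h9 : ∑ v ∈ sp y, df (Sum.inr v : Pl K) i y ≤ hgt y := by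
      have h10 := sum_df hy (Finset.Subset.refl (sp y)) i
      rw [sum_Spl] at h10
      have : 0 ≤ ∑ w : InfinitePlace K, df (Sum.inl w : Pl K) i y :=
        Finset.sum_nonneg fun w _ => df_nonneg _ _ hy
      linarith
    linarith

end Norms

/-- the quadratic equation in terms of the norms of `y` and `- y - 1` -/
private theorem smallR_quad {k E : Type} [Field k] [Field E] [Algebra k E]
    (h : Module.finrank k E = 2) (y : E) :
    y ^ 2 - algebraMap k E (Algebra.norm k (-y - 1) - Algebra.norm k y - 1) * y +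
      algebraMap k E (Algebra.norm k y) = 0 := by
  classical
  have : Module.Finite k E := Module.finite_of_finrank_eq_succ h
  set b : Module.Basis (Fin 2) k E := Module.finBasisOfFinrankEq k E h with hb
  have h1 : Algebra.leftMulMatrix b (-y - 1) = -Algebra.leftMulMatrix b y - 1 := by
    rw [map_sub, map_neg, map_one]
  apply Algebra.leftMulMatrix_injective b
  rw [map_zero, Algebra.norm_eq_matrix_det b, Algebra.norm_eq_matrix_det b, h1]
  rw [map_add, map_sub, map_pow, map_mul, AlgHom.commutes, AlgHom.commutes]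
  set Y : Matrix (Fin 2) (Fin 2) k := Algebra.leftMulMatrix b y with hY
  rw [Matrix.det_fin_two, Matrix.det_fin_two]
  ext i j
  fin_cases i <;> fin_cases j <;>
    simp [Matrix.mul_apply, pow_two, Fin.sum_univ_two, Matrix.algebraMap_matrix_apply] <;> ring

/-- products of powers of the primes dividing `N` -/
private noncomputable def smallR_T (N B : ℕ) : Finset ℚ :=
  (Finset.pi N.primeFactors fun _ => Finset.Icc (-(B : ℤ)) B).image
    fun e => ∏ p ∈ N.primeFactors.attach, (p.1 : ℚ) ^ (e p.1 p.2)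

private noncomputable def smallR_T' (N B : ℕ) : Finset ℚ :=
  smallR_T N B ∪ (smallR_T N B).image Neg.neg

private theorem smallR_card_T (N B : ℕ) : (smallR_T N B).card ≤ (2 * B + 1) ^ N.primeFactors.card := by
  unfold smallR_T
  refine Finset.card_image_le.trans ?_
  rw [Finset.card_pi, Finset.prod_const, Int.card_Icc]
  apply le_of_eq
  congr 1
  omega

private theorem smallR_card_T' (N B : ℕ) :
    (smallR_T' N B).card ≤ 2 * (2 * B + 1) ^ N.primeFactors.card := by
  unfold smallR_T'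
  refine (Finset.card_union_le _ _).trans ?_
  have h1 := smallR_card_T N B
  have h2 : ((smallR_T N B).image Neg.neg).card ≤ (smallR_T N B).card := Finset.card_image_le
  omega

private theorem smallR_mem_T' {N B : ℕ} {n : ℚ} (hn : n ≠ 0) {e : ℕ → ℤ}
    (h : Real.log |(n : ℝ)| = ∑ p ∈ N.primeFactors, (e p : ℝ) * Real.log p)
    (hB : ∀ p ∈ N.primeFactors, |(e p : ℝ)| ≤ B) : n ∈ smallR_T' N B := by
  have hnr : (n : ℝ) ≠ 0 := by exact_mod_cast hn
  have h1 : |(n : ℝ)| = ∏ p ∈ N.primeFactors, (p : ℝ) ^ (e p) := by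
    refine Real.log_injOn_pos (abs_pos.2 hnr) ?_ ?_
    · refine Set.mem_Ioi.2 (Finset.prod_pos fun p hp => ?_)
      have hp0 : (0 : ℝ) < p := by exact_mod_cast (Nat.prime_of_mem_primeFactors hp).pos
      exact zpow_pos hp0 _
    · rw [h, Real.log_prod]
      · refine Finset.sum_congr rfl fun p _ => ?_
        rw [Real.log_zpow]
      · intro p hp
        have hp0 : (p : ℝ) ≠ 0 := by exact_mod_cast (Nat.prime_of_mem_primeFactors hp).ne_zero
        exact zpow_ne_zero _ hp0
  have h2 : |n| = ∏ p ∈ N.primeFactors, (p : ℚ) ^ (e p) := by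
    have h3 : ((|n| : ℚ) : ℝ) = ((∏ p ∈ N.primeFactors, (p : ℚ) ^ (e p) : ℚ) : ℝ) := by
      push_cast
      exact h1
    exact_mod_cast h3
  have h4 : |n| ∈ smallR_T N B := by
    unfold smallR_T
    rw [Finset.mem_image]
    refine ⟨fun p _ => e p, ?_, ?_⟩
    · rw [Finset.mem_pi]
      intro p hp
      rw [Finset.mem_Icc]
      have h5 := abs_le.1 (hB p hp)
      constructor
      · exact_mod_cast h5.1
      · exact_mod_cast h5.2
    · rw [h2, Finset.prod_attach N.primeFactors (fun p : ℕ => (p : ℚ) ^ (e p))]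
  unfold smallR_T'
  rw [Finset.mem_union]
  rcases abs_choice n with h5 | h5
  · left
    rw [← h5]
    exact h4
  · right
    rw [Finset.mem_image]
    exact ⟨|n|, h4, by rw [h5, neg_neg]⟩

/-- the roots of the quadratic equation -/
private noncomputable def smallR_rt (q : ℚ × ℚ) : Finset Om := by
  classical
  exact (Polynomial.X ^ 2 - Polynomial.C (algebraMap ℚ Om (q.2 - q.1 - 1)) * Polynomial.X +
    Polynomial.C (algebraMap ℚ Om q.1)).roots.toFinset

private theorem smallR_rt_card (q : ℚ × ℚ) : (smallR_rt q).card ≤ 2 := by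
  classical
  unfold smallR_rt
  refine (Multiset.toFinset_card_le _).trans ?_
  refine (Polynomial.card_roots' _).trans ?_
  compute_degree

private theorem smallR_mem_rt (q : ℚ × ℚ) (x : Om)
    (h : x ^ 2 - algebraMap ℚ Om (q.2 - q.1 - 1) * x + algebraMap ℚ Om q.1 = 0) :
    x ∈ smallR_rt q := by
  classical
  unfold smallR_rt
  rw [Multiset.mem_toFinset, Polynomial.mem_roots']
  constructor
  · intro h0
    have h1 := congrArg (fun P => Polynomial.coeff P 2) h0
    simp only [Polynomial.coeff_zero] at h1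
    rw [Polynomial.coeff_add, Polynomial.coeff_sub, Polynomial.coeff_X_pow,
      Polynomial.coeff_C_mul_X, Polynomial.coeff_C] at h1
    norm_num at h1
  · rw [Polynomial.IsRoot.def]
    simpa using h

/-- all points lie in the union of the roots -/
private theorem smallR_cover {R H : ℝ} (hH : 0 ≤ H) {x : Om}
    (hx : IsQ (fun _ r h => r ≤ R ∧ h ≤ H) x) :
    ∃ N ∈ Finset.Icc 1 ⌊R⌋₊, ∃ q ∈ smallR_T' N ⌊3 * H⌋₊ ×ˢ smallR_T' N ⌊3 * H⌋₊,
      x ∈ smallR_rt q := by
  classical
  obtain ⟨E, inst, y, hyx, hfin, _, hPt, hr, hh⟩ := hx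
  set S : Finset ℕ := (sp y).image pv with hS
  have hSp : ∀ p ∈ S, p.Prime := by
    intro p hp
    obtain ⟨v, _, rfl⟩ := Finset.mem_image.1 hp
    exact pv_prime v
  set N : ℕ := ∏ p ∈ S, p with hN
  have hNS : N.primeFactors = S := Nat.primeFactors_prod hSp
  have hN1 : 1 ≤ N := Nat.one_le_iff_ne_zero.2 (Finset.prod_ne_zero_iff.2 fun p hp => (hSp p hp).ne_zero)
  have hNR : (N : ℝ) ≤ R := by
    refine le_trans ?_ hr
    rw [hN, Nat.cast_prod]
    exact smallR_prod_le (sp y)
  have hbd : ∀ e : ℕ → ℤ, (∀ p ∈ S, |(e p : ℝ)| * Real.log p ≤ 2 * hgt y) →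
      ∀ p ∈ N.primeFactors, |(e p : ℝ)| ≤ (⌊3 * H⌋₊ : ℕ) := by
    intro e he p hp
    rw [hNS] at hp
    have h1 := he p hp
    have h2 : Real.log 2 ≤ Real.log p := by
      refine Real.log_le_log (by norm_num) ?_
      exact_mod_cast (hSp p hp).two_le
    have h3 := Real.log_two_gt_d9
    have h4 : |(e p : ℝ)| * Real.log 2 ≤ 2 * H := by
      refine (mul_le_mul_of_nonneg_left h2 (abs_nonneg _)).trans (h1.trans ?_)
      linarith
    have h5 : |(e p : ℝ)| ≤ 3 * H := by
      by_contra hcon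
      rw [not_le] at hcon
      nlinarith [abs_nonneg (e p : ℝ)]
    have h6 : (((e p).natAbs : ℕ) : ℝ) = |(e p : ℝ)| := by
      rw [Nat.cast_natAbs]
      push_cast
      rfl
    rw [← h6] at h5 ⊢
    exact_mod_cast Nat.le_floor h5
  obtain ⟨e0, h01, h02⟩ := smallR_exps hPt 0
  obtain ⟨e2, h21, h22⟩ := smallR_exps hPt 2
  refine ⟨N, Finset.mem_Icc.2 ⟨hN1, Nat.le_floor hNR⟩,
    (Algebra.norm ℚ y, Algebra.norm ℚ (-y - 1)), ?_, ?_⟩
  · rw [Finset.mem_product]
    constructor
    · refine smallR_mem_T' (e := e0) ?_ ?_ (hbd e0 h02)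
      · exact (Algebra.norm_ne_zero_iff).2 (L_ne hPt 0)
      · rw [hNS]
        exact h01
    · refine smallR_mem_T' (e := e2) ?_ ?_ (hbd e2 h22)
      · exact (Algebra.norm_ne_zero_iff).2 (L_ne hPt 2)
      · rw [hNS]
        exact h21
  · apply smallR_mem_rt
    have h := smallR_quad hfin y
    have h' := congrArg (algebraMap E Om) h
    rw [map_add, map_sub, map_pow, map_mul, ← IsScalarTower.algebraMap_apply,
      ← IsScalarTower.algebraMap_apply, map_zero] at h'
    rw [← hyx]
    exact h'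

/-- powers with exponent the number of prime factors -/
private theorem smallR_omega {w t κ : ℝ} (hw : 1 ≤ w) (ht : 0 ≤ t) (hκ : 0 ≤ κ)
    (h : ∀ p : ℕ, t ≤ p → w ≤ (p : ℝ) ^ κ) {N : ℕ} (hN : 1 ≤ N) :
    w ^ N.primeFactors.card ≤ w ^ (t + 1) * (N : ℝ) ^ κ := by
  classical
  set S := N.primeFactors.filter fun p : ℕ => (p : ℝ) < t with hS
  set S' := N.primeFactors.filter fun p : ℕ => ¬ (p : ℝ) < t with hS'
  have h1 : S.card + S'.card = N.primeFactors.card := Finset.card_filter_add_card_filter_not _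
  have h2 : w ^ S.card ≤ w ^ (t + 1) := by
    rw [← Real.rpow_natCast]
    refine Real.rpow_le_rpow_of_exponent_le hw ?_
    have h3 : S ⊆ Finset.range (⌊t⌋₊ + 1) := by
      intro p hp
      rw [Finset.mem_range, Nat.lt_succ_iff]
      exact Nat.le_floor (Finset.mem_filter.1 hp).2.le
    have h4 := Finset.card_le_card h3
    rw [Finset.card_range] at h4
    have h5 : (S.card : ℝ) ≤ (⌊t⌋₊ : ℝ) + 1 := by exact_mod_cast h4
    have h6 := Nat.floor_le ht
    linarith
  have h3 : w ^ S'.card ≤ (N : ℝ) ^ κ := by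
    rw [← Finset.prod_const]
    have h4 : ∏ _p ∈ S', w ≤ ∏ p ∈ S', (p : ℝ) ^ κ := by
      refine Finset.prod_le_prod (fun p _ => by linarith) fun p hp => ?_
      exact h p (not_lt.1 (Finset.mem_filter.1 hp).2)
    refine h4.trans ?_
    rw [Real.finsetProd_rpow S' _ (fun p _ => Nat.cast_nonneg _)]
    refine Real.rpow_le_rpow (Finset.prod_nonneg fun p _ => Nat.cast_nonneg _) ?_ hκ
    have h5 : ∏ p ∈ S', p ∣ N :=
      (Finset.prod_dvd_prod_of_subset _ _ _ (Finset.filter_subset _ _)).trans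
        (Nat.prod_primeFactors_dvd N)
    rw [← Nat.cast_prod]
    exact_mod_cast Nat.le_of_dvd hN h5
  rw [← h1, pow_add]
  exact mul_le_mul h2 h3 (by positivity) (by positivity)

/-- `T ^ (2 A (sqrt T + 1))` is at most `C exp (ε T)` -/
private theorem smallR_exp (A ε : ℝ) (hA : 0 ≤ A) (hε : 0 < ε) : ∃ C : ℝ, 0 < C ∧
    ∀ T : ℝ, 1 ≤ T → (T ^ (2 * A)) ^ (T ^ ((1 : ℝ) / 2) + 1) ≤ C * Real.exp (ε * (T - 1)) := by
  set c : ℝ := 16 * A + 1 with hc
  have hc0 : 0 < c := by positivity
  set T0 : ℝ := (c / ε) ^ (4 : ℕ) with hT0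
  refine ⟨Real.exp (ε + c * (T0 + 1)), Real.exp_pos _, ?_⟩
  intro T hT
  have hTpos : 0 < T := by linarith
  rw [← Real.rpow_mul hTpos.le, Real.rpow_def_of_pos hTpos, ← Real.exp_add]
  refine Real.exp_le_exp.2 ?_
  set u : ℝ := T ^ ((1 : ℝ) / 4) with hu
  have hu1 : 1 ≤ u := Real.one_le_rpow hT (by norm_num)
  have hu2 : T ^ ((1 : ℝ) / 2) = u ^ 2 := by
    rw [hu, ← Real.rpow_natCast, ← Real.rpow_mul hTpos.le]
    norm_num
  have hu4 : T = u ^ 4 := by
    rw [hu, ← Real.rpow_natCast, ← Real.rpow_mul hTpos.le]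
    norm_num
  have hlog : Real.log T ≤ 4 * u := by
    have h1 : Real.log T = 4 * Real.log u := by
      conv_lhs => rw [hu4]
      rw [Real.log_pow]
      norm_num
    have h2 := Real.log_le_sub_one_of_pos (show 0 < u by linarith)
    rw [h1]
    linarith
  have hlog0 : 0 ≤ Real.log T := Real.log_nonneg hT
  have h3 : Real.log T * (2 * A * (T ^ ((1 : ℝ) / 2) + 1)) ≤ c * u ^ 3 := by
    rw [hu2]
    have h4 : 2 * A * (u ^ 2 + 1) ≤ 4 * A * u ^ 2 := by nlinarith
    have h5 : 0 ≤ 2 * A * (u ^ 2 + 1) := by positivity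
    calc Real.log T * (2 * A * (u ^ 2 + 1)) ≤ (4 * u) * (4 * A * u ^ 2) :=
          mul_le_mul hlog h4 h5 (by linarith)
      _ = 16 * A * u ^ 3 := by ring
      _ ≤ c * u ^ 3 := by
          rw [hc]
          have : 0 ≤ u ^ 3 := by positivity
          linarith
  have h6 : c * u ^ 3 ≤ ε * T + c * (T0 + 1) := by
    rcases le_total (c / ε) u with h | h
    · have h7 : c ≤ ε * u := by
        rw [div_le_iff₀ hε] at h
        linarith
      have h8 : c * u ^ 3 ≤ ε * T := by
        rw [hu4]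
        have : 0 ≤ u ^ 3 := by positivity
        nlinarith
      have h9 : 0 ≤ c * (T0 + 1) := by positivity
      linarith
    · have h7 : u ^ 3 ≤ T0 + 1 := by
        have h8 : u ^ 3 ≤ u ^ 4 := pow_le_pow_right₀ hu1 (by norm_num)
        have h9 : u ^ 4 ≤ T0 := by
          rw [hT0]
          exact pow_le_pow_left₀ (by linarith) h 4
        linarith
      have h8 : c * u ^ 3 ≤ c * (T0 + 1) := mul_le_mul_of_nonneg_left h7 hc0.le
      have h9 : 0 ≤ ε * T := by positivity
      linarith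
  linarith

theorem smallRad : SmallRad := by
  classical
  intro A M ε hA hM hε
  set D : ℝ := 49 * M ^ 2 with hD
  have hD1 : 1 ≤ D := by rw [hD]; nlinarith
  obtain ⟨C0, hC0, hexp⟩ := smallR_exp A ε (by linarith) hε
  refine ⟨8 * (D ^ (D + 1) * C0), by positivity, ?_⟩
  intro R Y hR hY F hF
  have hY0 : 0 < Y := by linarith
  have hR0 : 0 < R := by linarith
  set T : ℝ := 1 + Real.log Y with hT
  have hT1 : 1 ≤ T := by rw [hT]; linarith [Real.log_nonneg hY]
  have hT0 : 0 < T := by linarith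
  set H : ℝ := M * T ^ A with hH
  have hTA : 1 ≤ T ^ A := Real.one_le_rpow hT1 (by linarith)
  have hH1 : 1 ≤ H := by rw [hH]; nlinarith
  set B : ℕ := ⌊3 * H⌋₊ with hB
  have hB' : (B : ℝ) ≤ 3 * H := Nat.floor_le (by linarith)
  -- the covering
  have hcov : F ⊆ (Finset.Icc 1 ⌊R⌋₊).biUnion fun N =>
      (smallR_T' N B ×ˢ smallR_T' N B).biUnion smallR_rt := by
    intro x hx
    obtain ⟨N, hN, q, hq, hxq⟩ := smallR_cover (by linarith : (0 : ℝ) ≤ H) (hF x hx)
    rw [Finset.mem_biUnion]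
    refine ⟨N, hN, ?_⟩
    rw [Finset.mem_biUnion]
    exact ⟨q, hq, hxq⟩
  have h1 : (F.card : ℝ) ≤ ∑ N ∈ Finset.Icc 1 ⌊R⌋₊,
      (8 * ((2 * B + 1) ^ 2) ^ N.primeFactors.card : ℝ) := by
    have h2 : F.card ≤ ∑ N ∈ Finset.Icc 1 ⌊R⌋₊, 8 * ((2 * B + 1) ^ 2) ^ N.primeFactors.card := by
      refine (Finset.card_le_card hcov).trans (Finset.card_biUnion_le.trans ?_)
      refine Finset.sum_le_sum fun N _ => ?_
      refine Finset.card_biUnion_le.trans ?_
      refine (Finset.sum_le_card_nsmul _ _ 2 fun q _ => smallR_rt_card q).trans ?_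
      rw [Finset.card_product, smul_eq_mul]
      have h3 := smallR_card_T' N B
      calc (smallR_T' N B).card * (smallR_T' N B).card * 2
          ≤ (2 * (2 * B + 1) ^ N.primeFactors.card) * (2 * (2 * B + 1) ^ N.primeFactors.card) *
            2 := Nat.mul_le_mul_right _ (Nat.mul_le_mul h3 h3)
        _ = 8 * ((2 * B + 1) ^ 2) ^ N.primeFactors.card := by rw [← pow_mul]; ring
    exact_mod_cast h2
  have h3 : ∀ N ∈ Finset.Icc 1 ⌊R⌋₊, (8 * ((2 * B + 1) ^ 2) ^ N.primeFactors.card : ℝ) ≤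
      8 * (D ^ (D + 1) * (C0 * Y ^ ε)) * R ^ (4 * A + 1) := by
    intro N hN
    rw [Finset.mem_Icc] at hN
    have hN1 : (1 : ℝ) ≤ N := by exact_mod_cast hN.1
    have hNR : (N : ℝ) ≤ R := (Nat.cast_le.2 hN.2).trans (Nat.floor_le hR0.le)
    have h4 : ((2 * B + 1) ^ 2 : ℝ) ≤ D * T ^ (2 * A) := by
      have h5 : (2 * B + 1 : ℝ) ≤ 7 * H := by linarith
      calc ((2 * B + 1) ^ 2 : ℝ) ≤ (7 * H) ^ 2 := pow_le_pow_left₀ (by positivity) h5 2
        _ = D * T ^ (2 * A) := by
            rw [hH, hD, mul_comm 2 A, Real.rpow_mul hT0.le]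
            norm_num
            ring
    have h5 : (((2 * B + 1) ^ 2) ^ N.primeFactors.card : ℝ) ≤
        D ^ N.primeFactors.card * (T ^ (2 * A)) ^ N.primeFactors.card := by
      rw [← mul_pow]
      exact pow_le_pow_left₀ (by positivity) h4 _
    have h6 : D ^ N.primeFactors.card ≤ D ^ (D + 1) * (N : ℝ) ^ (1 : ℝ) := by
      refine smallR_omega hD1 (by linarith) zero_le_one ?_ hN.1
      intro p hp
      rw [Real.rpow_one]
      exact hp
    have h7 : (T ^ (2 * A)) ^ N.primeFactors.card ≤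
        (T ^ (2 * A)) ^ (T ^ ((1 : ℝ) / 2) + 1) * (N : ℝ) ^ (4 * A) := by
      refine smallR_omega (Real.one_le_rpow hT1 (by linarith)) (by positivity) (by linarith) ?_ hN.1
      intro p hp
      have h8 : T ^ (2 * A) = (T ^ ((1 : ℝ) / 2)) ^ (4 * A) := by
        rw [← Real.rpow_mul hT0.le]
        congr 1
        ring
      rw [h8]
      exact Real.rpow_le_rpow (by positivity) hp (by linarith)
    have h8 := hexp T hT1
    have h9 : Real.exp (ε * (T - 1)) = Y ^ ε := by
      rw [Real.rpow_def_of_pos hY0, hT]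
      congr 1
      ring
    rw [h9] at h8
    have h10 : (N : ℝ) ^ (1 : ℝ) * (N : ℝ) ^ (4 * A) ≤ R ^ (4 * A + 1) := by
      rw [← Real.rpow_add (by linarith), add_comm]
      exact Real.rpow_le_rpow (by linarith) hNR (by linarith)
    have hYε : 0 < Y ^ ε := Real.rpow_pos_of_pos hY0 _
    have hDD : 0 < D ^ (D + 1) := Real.rpow_pos_of_pos (by linarith) _
    calc (8 * ((2 * B + 1) ^ 2) ^ N.primeFactors.card : ℝ)
        ≤ 8 * ((D ^ (D + 1) * (N : ℝ) ^ (1 : ℝ)) * ((C0 * Y ^ ε) * (N : ℝ) ^ (4 * A))) := by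
          refine mul_le_mul_of_nonneg_left (h5.trans ?_) (by norm_num)
          refine mul_le_mul h6 (h7.trans ?_) (by positivity) (by positivity)
          exact mul_le_mul_of_nonneg_right h8 (by positivity)
      _ = 8 * (D ^ (D + 1) * (C0 * Y ^ ε)) * ((N : ℝ) ^ (1 : ℝ) * (N : ℝ) ^ (4 * A)) := by ring
      _ ≤ 8 * (D ^ (D + 1) * (C0 * Y ^ ε)) * R ^ (4 * A + 1) :=
          mul_le_mul_of_nonneg_left h10 (by positivity)
  have h4 := Finset.sum_le_card_nsmul _ _ _ h3
  rw [Nat.card_Icc, Nat.add_sub_cancel, nsmul_eq_mul] at h4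
  have hYε : 0 < Y ^ ε := Real.rpow_pos_of_pos hY0 _
  have hDD : 0 < D ^ (D + 1) := Real.rpow_pos_of_pos (by linarith) _
  calc (F.card : ℝ) ≤ _ := h1
    _ ≤ _ := h4
    _ ≤ R * (8 * (D ^ (D + 1) * (C0 * Y ^ ε)) * R ^ (4 * A + 1)) :=
        mul_le_mul_of_nonneg_right (Nat.floor_le hR0.le) (by positivity)
    _ = 8 * (D ^ (D + 1) * C0) * Y ^ ε * (R ^ (4 * A + 1) * R ^ (1 : ℝ)) := by
        rw [Real.rpow_one]; ring
    _ = 8 * (D ^ (D + 1) * C0) * Y ^ ε * R ^ (4 * A + 2) := by
        rw [← Real.rpow_add hR0]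
        congr 2
        ring

end Pool.Agent.TH876.QD
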