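import Mathlib
import Pool.Agent.TH876.QD.Def

set_option autoImplicit false

/-!
# Summation over quadratic fields
-/

namespace Pool.Agent.TH876.QD

open NumberField IsDedekindDomain Finset Pool.Agent.H691R3 Pool.Agent.TH876.Loc
open Pool.Agent.TH876.KR (side rr)

open Classical in
/-- the discriminant of an intermediate field -/
private noncomputable def SumF_D (L : IntermediateField ℚ Om) : ℤ :=
  if h : NumberField L then haveI := h; NumberField.discr L else 0

private theorem SumF_D_eq (L : IntermediateField ℚ Om) [h : NumberField L] :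
    SumF_D L = NumberField.discr L := by
  unfold SumF_D
  rw [dif_pos h]

/-- the property of the chosen field -/
private def SumF_P (Q : ℝ → ℝ → ℝ → Prop) (x : Om) (L : IntermediateField ℚ Om) : Prop :=
  ∃ (_ : NumberField L) (y : L), (y : Om) = x ∧
    Module.finrank ℚ L = 2 ∧ Pt y ∧
    Q ((NumberField.discr L).natAbs : ℝ) (nn (sp y)) (hgt y)

open Classical in
theorem sumFields (hD : DiscInj) : SumFields := by
  intro Q Z b hb hQ hE F hF
  have hex : ∀ x ∈ F, ∃ L : IntermediateField ℚ Om, SumF_P Q x L := by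
    intro x hx
    obtain ⟨L, hN, y, h1, h2, _, h4, h5⟩ := hF x hx
    exact ⟨L, hN, y, h1, h2, h4, h5⟩
  set Lf : Om → IntermediateField ℚ Om := fun x =>
    if h : ∃ L : IntermediateField ℚ Om, SumF_P Q x L then h.choose else ⊥ with hLf
  have hLf' : ∀ x ∈ F, SumF_P Q x (Lf x) := by
    intro x hx
    simp only [hLf]
    rw [dif_pos (hex x hx)]
    exact (hex x hx).choose_spec
  set I : Finset (IntermediateField ℚ Om) := F.image Lf with hI
  have hI' : ∀ L ∈ I, NumberField L ∧ Module.finrank ℚ L = 2 ∧ (SumF_D L).natAbs ∈ Icc 1 ⌊Z⌋₊ := by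
    intro L hL
    obtain ⟨x, hx, rfl⟩ := Finset.mem_image.mp hL
    obtain ⟨hN, y, h1, h2, h4, h5⟩ := hLf' x hx
    refine ⟨hN, h2, ?_⟩
    rw [SumF_D_eq, Finset.mem_Icc]
    constructor
    · exact Nat.one_le_iff_ne_zero.mpr (Int.natAbs_ne_zero.mpr (NumberField.discr_ne_zero _))
    · exact Nat.le_floor (hQ _ _ _ h5)
  have hfib : ∀ L ∈ I, ((F.filter fun x => Lf x = L).card : ℝ) ≤ b (SumF_D L).natAbs := by
    intro L hL
    obtain ⟨hN, h2, _⟩ := hI' L hL
    have hinj : Set.InjOn (fun y : L => (y : Om)) ((fun y : L => (y : Om)) ⁻¹'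
        (F.filter fun x => Lf x = L : Finset Om)) := Subtype.val_injective.injOn
    have hcard : ((F.filter fun x => Lf x = L).preimage (fun y : L => (y : Om)) hinj).card =
        (F.filter fun x => Lf x = L).card := by
      have himg : ((F.filter fun x => Lf x = L).preimage (fun y : L => (y : Om)) hinj).image
          (fun y : L => (y : Om)) = F.filter fun x => Lf x = L := by
        rw [Finset.image_preimage, Finset.filter_eq_self]
        intro x hx
        rw [Finset.mem_filter] at hx
        obtain ⟨_, y, h1, _⟩ := hLf' x hx.1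
        rw [← hx.2]
        exact ⟨y, h1⟩
      conv_rhs => rw [← himg]
      rw [Finset.card_image_of_injective _ Subtype.val_injective]
    rw [← hcard, SumF_D_eq]
    apply hE L h2
    intro y hy
    rw [Finset.mem_preimage, Finset.mem_filter] at hy
    obtain ⟨hy1, hy2⟩ := hy
    obtain ⟨hN', y', h1, h2', h4, h5⟩ := hLf' _ hy1
    clear hcard hinj
    generalize hG : Lf (y : Om) = L' at *
    subst hy2
    have : y' = y := Subtype.ext h1
    subst this
    exact ⟨h4, h5⟩
  have h1 : (F.card : ℝ) = ∑ L ∈ I, ((F.filter fun x => Lf x = L).card : ℝ) := by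
    rw [Finset.card_eq_sum_card_image Lf F]
    push_cast
    rfl
  have h2 : (F.card : ℝ) ≤ ∑ L ∈ I, b (SumF_D L).natAbs := by
    rw [h1]
    exact Finset.sum_le_sum hfib
  have h3 : ∑ L ∈ I, b (SumF_D L).natAbs =
      ∑ d ∈ Icc 1 ⌊Z⌋₊, ∑ L ∈ I with (SumF_D L).natAbs = d, b (SumF_D L).natAbs :=
    (Finset.sum_fiberwise_of_maps_to (fun L hL => (hI' L hL).2.2) _).symm
  have h4 : ∀ d ∈ Icc 1 ⌊Z⌋₊, ∑ L ∈ I with (SumF_D L).natAbs = d, b (SumF_D L).natAbs ≤
      2 * b d := by
    intro d _
    have e1 : ∑ L ∈ I with (SumF_D L).natAbs = d, b (SumF_D L).natAbs =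
        ((I.filter fun L => (SumF_D L).natAbs = d).card : ℝ) * b d := by
      rw [← nsmul_eq_mul, ← Finset.sum_const]
      apply Finset.sum_congr rfl
      intro L hL
      rw [(Finset.mem_filter.mp hL).2]
    rw [e1]
    apply mul_le_mul_of_nonneg_right _ (hb d)
    have e2 : (I.filter fun L => (SumF_D L).natAbs = d).card ≤ ({(d : ℤ), -(d : ℤ)} : Finset ℤ).card := by
      apply Finset.card_le_card_of_injOn SumF_D
      · intro L hL
        have := (Finset.mem_filter.mp hL).2
        rw [Finset.coe_insert, Finset.coe_singleton, Set.mem_insert_iff, Set.mem_singleton_iff]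
        rcases Int.natAbs_eq (SumF_D L) with h | h
        · left; rw [h, this]
        · right; rw [h, this]
      · intro L hL L' hL' h
        obtain ⟨hN, hr, _⟩ := hI' L (Finset.mem_filter.mp hL).1
        obtain ⟨hN', hr', _⟩ := hI' L' (Finset.mem_filter.mp hL').1
        apply hD L L' hr hr'
        rw [← SumF_D_eq, ← SumF_D_eq]
        exact h
    have e3 : ({(d : ℤ), -(d : ℤ)} : Finset ℤ).card ≤ 2 := Finset.card_le_two
    exact_mod_cast e2.trans e3
  calc (F.card : ℝ) ≤ ∑ L ∈ I, b (SumF_D L).natAbs := h2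
    _ ≤ ∑ d ∈ Icc 1 ⌊Z⌋₊, 2 * b d := by
      rw [h3]
      exact Finset.sum_le_sum h4
    _ = 2 * ∑ d ∈ Icc 1 ⌊Z⌋₊, b d := by rw [Finset.mul_sum]

end Pool.Agent.TH876.QD
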