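import Pool.Agent.TH876.QD.ManySmall
import Pool.Agent.TH876.QD.FiberU
import Pool.Agent.TH876.QD.SetC
import Pool.Agent.TH876.QD.FewS
import Pool.Agent.TH876.QD.PerF
import Pool.Agent.TH876.QD.Disc
import Pool.Agent.TH876.QD.SumF
import Pool.Agent.TH876.QD.SmallR
import Pool.Agent.TH876.QD.AllH
import Pool.Agent.TH876.QD.PolyH
import Pool.Agent.TH876.QD.FinQ

set_option autoImplicit false

/-!
# Quadratic points of the projective line minus three points: the main results
-/

namespace Pool.Agent.TH876.QD

/-- a power saving for points of polylogarithmic height, uniformly in the field -/
theorem per_field : PerField := perField manySmall (fewSmall fiberUnif setCount)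

theorem all_heights : AllHeights := allHeights (sumFields discInj)

theorem poly_heights : PolyHeights := polyHeights (sumFields discInj) per_field smallRad

end Pool.Agent.TH876.QD
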