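import Mathlib
import Pool.Agent.TH876.Main
import Pool.Agent.TH876.QD.Def

set_option autoImplicit false

/-!
# Points of which the small primes have a large product
-/

namespace Pool.Agent.TH876.QD

open NumberField IsDedekindDomain Finset Pool.Agent.H691R3 Pool.Agent.TH876.Loc
open Pool.Agent.TH876.KR (side rr)

private theorem manySmall_real {a b s : ℝ} (ha : 0 ≤ a) (hb : 0 < b) (hs : 0 ≤ s) :
    a * s ^ 3 ≤ b * s ^ 4 + a ^ 4 / b ^ 3 := by
  rcases le_or_gt (a / b) s with h | h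
  · have h1 : a ≤ b * s := by
      rw [div_le_iff₀ hb] at h
      linarith
    have h2 : a * s ^ 3 ≤ b * s * s ^ 3 := mul_le_mul_of_nonneg_right h1 (by positivity)
    have h3 : 0 ≤ a ^ 4 / b ^ 3 := by positivity
    nlinarith
  · have h1 : s ^ 3 ≤ (a / b) ^ 3 := pow_le_pow_left₀ hs h.le 3
    have h2 : a * s ^ 3 ≤ a * (a / b) ^ 3 := mul_le_mul_of_nonneg_left h1 ha
    have h3 : a * (a / b) ^ 3 = a ^ 4 / b ^ 3 := by
      rw [div_pow]
      ring
    have h4 : 0 ≤ b * s ^ 4 := by positivity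
    linarith

/-- growth of the exponent -/
private theorem manySmall_exp {c1 m c0 b L : ℝ} (hc1 : 0 ≤ c1) (hm : 0 ≤ m) (hc0 : 0 ≤ c0)
    (hb : 0 < b) (hL : 0 ≤ L) :
    c1 * (1 + L) ^ ((1 : ℝ) / 2) * (m * (Real.log (L + 2) + c0)) ≤
      b * L + (b + (c1 * (m * (5 + c0))) ^ 4 / b ^ 3) := by
  set y : ℝ := 1 + L with hy
  have hy1 : 1 ≤ y := by linarith
  have hy0 : 0 < y := by linarith
  set s : ℝ := y ^ ((1 : ℝ) / 4) with hs
  have hs1 : 1 ≤ s := Real.one_le_rpow hy1 (by norm_num)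
  have e2 : y ^ ((1 : ℝ) / 2) = s ^ 2 := by
    rw [hs, ← Real.rpow_natCast, ← Real.rpow_mul hy0.le]
    norm_num
  have e4 : y = s ^ 4 := by
    rw [hs, ← Real.rpow_natCast, ← Real.rpow_mul hy0.le]
    norm_num
  have h1 : Real.log (L + 2) ≤ 5 * s := by
    have h2 : Real.log (L + 2) ≤ Real.log (2 * y) := Real.log_le_log (by linarith) (by linarith)
    have h3 : Real.log (2 * y) = Real.log 2 + Real.log y := Real.log_mul two_ne_zero hy0.ne'
    have h4 : Real.log y ≤ y ^ ((1 : ℝ) / 4) / (1 / 4) := Real.log_le_rpow_div hy0.le (by norm_num)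
    have h5 := Real.log_two_lt_d9
    rw [← hs] at h4
    linarith
  have h6 : Real.log (L + 2) + c0 ≤ (5 + c0) * s := by nlinarith
  have h7 := manySmall_real (a := c1 * (m * (5 + c0))) (by positivity) hb (show 0 ≤ s by linarith)
  rw [e2]
  have h8 : c1 * s ^ 2 * (m * (Real.log (L + 2) + c0)) ≤ c1 * s ^ 2 * (m * ((5 + c0) * s)) := by
    gcongr
  have h9 : c1 * s ^ 2 * (m * ((5 + c0) * s)) = c1 * (m * (5 + c0)) * s ^ 3 := by ring
  have h10 : b * s ^ 4 = b * L + b := by rw [← e4, hy]; ring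
  linarith

theorem manySmall : ManySmall := by
  classical
  intro n κ ρ hκ hρ hρ1
  obtain ⟨C1, hC1, hlight⟩ := light_count n 0 (by norm_num)
  obtain ⟨c0, hc0, hinv⟩ := sum_inv_le
  have hC10 : 0 < C1 := by linarith
  have hκ0 : 0 < κ := by linarith
  set τ : ℝ := 1 / (2 * κ) with hτ
  have hτ0 : 0 < τ := by positivity
  set b : ℝ := ρ / (4 * κ) with hb
  have hb0 : 0 < b := by positivity
  have hτb : ρ * τ = 2 * b := by
    rw [hτ, hb]
    field_simp
    norm_num
  set D : ℝ := b + (C1 * ((n : ℝ) * (5 + c0))) ^ 4 / b ^ 3 with hD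
  refine ⟨C1 * Real.exp D, by positivity, ?_⟩
  intro K _ _ hn X hX E hE
  have hX0 : 0 < X := by linarith
  set L : ℝ := Real.log X with hL
  have hL0 : 0 ≤ L := Real.log_nonneg hX
  set z : ℝ := (1 + L) ^ κ with hz
  have hy0 : 0 < 1 + L := by linarith
  have hz0 : 0 < z := Real.rpow_pos_of_pos hy0 _
  set w : Pr K → ℝ := fun v => C1 / Nv v * (if Nv v ≤ z then Nv v ^ τ else 1) with hw
  have hw0 : ∀ v, 0 ≤ w v := by
    intro v
    have := Nv_pos v
    rw [hw]
    simp only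
    split_ifs <;> positivity
  set T := E.image sp with hT
  have hTS : ∀ S ∈ T, nn S ≤ X ∧ X ^ ρ ≤ nn (smallPart X κ S) := by
    intro S hS
    obtain ⟨x, hx, rfl⟩ := mem_image.1 hS
    exact (hE x hx).2
  -- the number of points with given primes
  have e1 : (E.card : ℝ) ≤ ∑ S ∈ T, C1 ^ (S.card + 1) := by
    have h2 : (E.card : ℝ) = ∑ S ∈ T, ((E.filter fun x => sp x = S).card : ℝ) := by
      exact_mod_cast Finset.card_eq_sum_card_image sp E
    rw [h2]
    refine sum_le_sum fun S _ => ?_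
    refine hlight K hn S _ fun x hx => ?_
    obtain ⟨hxE, hxS⟩ := mem_filter.1 hx
    refine ⟨(hE x hxE).1, ?_⟩
    rw [← hxS, out_sp, zero_mul]
  -- the weight of a set
  have e2 : ∀ S ∈ T, C1 ^ (S.card + 1) ≤ C1 * X ^ (1 - 2 * b) * ∏ v ∈ S, w v := by
    intro S hS
    obtain ⟨h1, h2⟩ := hTS S hS
    have hprod : ∏ v ∈ S, w v = C1 ^ S.card / nn S * nn (smallPart X κ S) ^ τ := by
      rw [hw]
      simp only
      rw [prod_mul_distrib]
      congr 1
      · unfold nn
        rw [prod_div_distrib, prod_const]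
      · rw [prod_ite, prod_const_one, mul_one]
        unfold nn smallPart
        rw [← Real.finset_prod_rpow _ _ fun v _ => (Nv_pos v).le]
    have h3 : 1 ≤ X ^ (-(2 * b)) * nn (smallPart X κ S) ^ τ := by
      have h4 : (X ^ ρ) ^ τ ≤ nn (smallPart X κ S) ^ τ :=
        Real.rpow_le_rpow (Real.rpow_nonneg hX0.le _) h2 hτ0.le
      rw [← Real.rpow_mul hX0.le, hτb] at h4
      calc (1 : ℝ) = X ^ (-(2 * b)) * X ^ (2 * b) := by
            rw [← Real.rpow_add hX0]
            simp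
        _ ≤ _ := mul_le_mul_of_nonneg_left h4 (Real.rpow_nonneg hX0.le _)
    have hnS := nn_pos S
    have h5 : C1 ^ S.card ≤ X * (C1 ^ S.card / nn S) := by
      rw [← mul_div_assoc, le_div_iff₀ hnS, mul_comm]
      exact mul_le_mul_of_nonneg_right h1 (by positivity)
    have h6 : 0 ≤ X * (C1 ^ S.card / nn S) := by positivity
    have h7 : X * (C1 ^ S.card / nn S) ≤
        X * (C1 ^ S.card / nn S) * (X ^ (-(2 * b)) * nn (smallPart X κ S) ^ τ) :=
      le_mul_of_one_le_right h6 h3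
    have h8 : X ^ (1 - 2 * b) = X * X ^ (-(2 * b)) := by
      rw [sub_eq_add_neg, Real.rpow_add hX0, Real.rpow_one]
    rw [hprod, h8, pow_succ]
    calc C1 ^ S.card * C1 = C1 * C1 ^ S.card := by ring
      _ ≤ C1 * (X * (C1 ^ S.card / nn S) * (X ^ (-(2 * b)) * nn (smallPart X κ S) ^ τ)) :=
          mul_le_mul_of_nonneg_left (h5.trans h7) hC10.le
      _ = _ := by ring
  -- the sum over the sets
  have e3 : ∑ S ∈ T, ∏ v ∈ S, w v ≤ Real.exp (∑ v ∈ T.biUnion id, w v) :=
    sum_sets_le w hw0 (T.biUnion id) T fun S hS => subset_biUnion_of_mem id hS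
  have e4 : ∑ v ∈ T.biUnion id, w v ≤
      C1 * (1 + L) ^ ((1 : ℝ) / 2) * ((n : ℝ) * (Real.log (L + 2) + c0)) := by
    have h1 : ∀ v ∈ T.biUnion id, w v ≤ C1 * (1 + L) ^ ((1 : ℝ) / 2) * (1 / Nv v) := by
      intro v _
      have hv := Nv_pos v
      have h2 : (if Nv v ≤ z then Nv v ^ τ else 1) ≤ (1 + L) ^ ((1 : ℝ) / 2) := by
        split_ifs with h
        · calc Nv v ^ τ ≤ z ^ τ := Real.rpow_le_rpow hv.le h hτ0.le
            _ = (1 + L) ^ ((1 : ℝ) / 2) := by
                rw [hz, ← Real.rpow_mul hy0.le]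
                congr 1
                rw [hτ]
                field_simp
        · exact Real.one_le_rpow (by linarith) (by norm_num)
      rw [hw]
      simp only
      calc C1 / Nv v * (if Nv v ≤ z then Nv v ^ τ else 1) ≤
          C1 / Nv v * (1 + L) ^ ((1 : ℝ) / 2) := mul_le_mul_of_nonneg_left h2 (by positivity)
        _ = _ := by ring
    refine (sum_le_sum h1).trans ?_
    rw [← mul_sum]
    refine mul_le_mul_of_nonneg_left ?_ (by positivity)
    have hlog3 : Real.log 3 ≤ 2 := by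
      rw [Real.log_le_iff_le_exp (by norm_num)]
      have := Real.add_one_le_exp (2 : ℝ)
      linarith
    have hlog31 : 0 < Real.log 3 := Real.log_pos (by norm_num)
    have h3 := hinv K (max X 3) (le_max_right _ _) (T.biUnion id) (by
      intro v hv
      obtain ⟨S, hS, hvS⟩ := mem_biUnion.1 hv
      exact ((Nv_le_nn hvS).trans (hTS S hS).1).trans (le_max_left _ _))
    rw [hn] at h3
    refine h3.trans (mul_le_mul_of_nonneg_left ?_ (Nat.cast_nonneg _))
    have h4 : Real.log (max X 3) ≤ L + 2 := by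
      rcases max_cases X 3 with ⟨h, _⟩ | ⟨h, _⟩
      · rw [h]; linarith
      · rw [h]; linarith
    have h5 : 0 < Real.log (max X 3) :=
      lt_of_lt_of_le hlog31 (Real.log_le_log (by norm_num) (le_max_right _ _))
    have h6 := Real.log_le_log h5 h4
    linarith
  have e5 := manySmall_exp hC10.le (Nat.cast_nonneg n) hc0 hb0 hL0
  have e6 : Real.exp (∑ v ∈ T.biUnion id, w v) ≤ X ^ b * Real.exp D := by
    have h1 : Real.exp (∑ v ∈ T.biUnion id, w v) ≤ Real.exp (b * L + D) :=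
      Real.exp_le_exp.2 (e4.trans e5)
    refine h1.trans (le_of_eq ?_)
    rw [Real.exp_add, Real.rpow_def_of_pos hX0, ← hL]
    congr 2
    ring
  calc (E.card : ℝ) ≤ ∑ S ∈ T, C1 ^ (S.card + 1) := e1
    _ ≤ ∑ S ∈ T, C1 * X ^ (1 - 2 * b) * ∏ v ∈ S, w v := sum_le_sum e2
    _ = C1 * X ^ (1 - 2 * b) * ∑ S ∈ T, ∏ v ∈ S, w v := by rw [mul_sum]
    _ ≤ C1 * X ^ (1 - 2 * b) * (X ^ b * Real.exp D) :=
        mul_le_mul_of_nonneg_left (e3.trans e6) (by positivity)
    _ = C1 * Real.exp D * (X ^ (1 - 2 * b) * X ^ b) := by ring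
    _ = C1 * Real.exp D * X ^ (1 - b) := by
        rw [← Real.rpow_add hX0]
        congr 2
        ring

end Pool.Agent.TH876.QD
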